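import Pool.Agent.K6.H11.GM.Det

/-!
The volume of a convex body with bounded determinants.
-/

set_option autoImplicit false

open MeasureTheory Set Filter Topology Metric Function
open scoped RealInnerProductSpace ENNReal
open Pool.Agent.H318R3.St

namespace Pool.Agent.K6.H11.GM

section strict

variable {E : Type*} [NormedAddCommGroup E] [InnerProductSpace ℝ E] [FiniteDimensional ℝ E]
  [MeasurableSpace E] [BorelSpace E]

/-- second moment -/
noncomputable def JJ2 (A : Set E) : ℝ≥0∞ := ∫⁻ x in A, ENNReal.ofReal (‖x‖ ^ 2)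

omit [FiniteDimensional ℝ E] [MeasurableSpace E] [BorelSpace E] in
lemma norm_line' {u : E} (hu : ‖u‖ = 1) {x : E} (hx : ⟪x, u⟫ = 0) (s : ℝ) :
    ‖x + s • u‖ ^ 2 = ‖x‖ ^ 2 + s ^ 2 := by
  rw [norm_add_sq_real, inner_smul_right, hx, norm_smul, hu, mul_one, Real.norm_eq_abs, sq_abs]
  ring

lemma int_sq {N a b : ℝ} (hab : a ≤ b) (hN : 0 ≤ N) :
    ∫⁻ s in Icc a b, ENNReal.ofReal (N + s ^ 2) =
      ENNReal.ofReal (N * (b - a) + (b ^ 3 - a ^ 3) / 3) := by
  have hc : Continuous fun s : ℝ => N + s ^ 2 := by fun_prop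
  rw [← ofReal_integral_eq_lintegral_ofReal (hc.continuousOn.integrableOn_Icc)]
  · rw [integral_Icc_eq_integral_Ioc, ← intervalIntegral.integral_of_le hab]
    congr 1
    rw [intervalIntegral.integral_add (by simp) (by
      exact (by fun_prop : Continuous fun s : ℝ => s ^ 2).intervalIntegrable _ _)]
    rw [integral_pow, intervalIntegral.integral_const]
    norm_num
    ring
  · exact Filter.Eventually.of_forall fun s => by positivity

lemma meas_line {u : E} (g : E → ℝ≥0∞) (hg : Measurable g) (A : Set E) (hA : MeasurableSet A) :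
    Measurable fun x : E => ∫⁻ s in chord u (foot u x) A, g (foot u x + s • u) := by
  have hfoot : Measurable (fun x : E => foot u x) := by unfold foot; fun_prop
  have e : (fun x : E => ∫⁻ s in chord u (foot u x) A, g (foot u x + s • u)) =
      fun x : E => ∫⁻ s : ℝ, A.indicator g (foot u x + s • u) := by
    ext x
    have hm : MeasurableSet (chord u (foot u x) A) := by
      apply hA.preimage; fun_prop
    rw [← lintegral_indicator hm]
    rfl
  rw [e]
  apply Measurable.lintegral_prod_right'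
    (f := fun p : E × ℝ => A.indicator g (foot u p.1 + p.2 • u))
  exact (hg.indicator hA).comp (by
    apply Measurable.add
    · exact hfoot.comp measurable_fst
    · fun_prop)

/-- A compact convex set whose second moment is not decreased by the Steiner symmetrization is
symmetric. -/
theorem symm_of_JJ2 {u : E} (hu : ‖u‖ = 1) {K : Set E} (hK : IsCompact K) (hc : Convex ℝ K)
    (hv : volume K ≠ 0) (hfin : JJ2 K ≠ ⊤) (hJ : JJ2 K ≤ JJ2 (sym u K)) : K ⊆ refl u ⁻¹' K := by
  have hg : Measurable fun x : E => ENNReal.ofReal (‖x‖ ^ 2) := by fun_prop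
  have hsc := sym_isCompact hu hK hc
  have e1 := setLIntegral_line hu _ hg hK.measurableSet
  have e2 := setLIntegral_line hu _ hg hsc.measurableSet
  unfold JJ2 at hfin hJ
  rw [e1] at hfin hJ
  rw [e2] at hJ
  -- pointwise comparison
  have key : ∀ x : E, (∫⁻ s in chord u (foot u x) (sym u K),
      ENNReal.ofReal (‖foot u x + s • u‖ ^ 2)) ≤
      (∫⁻ s in chord u (foot u x) K, ENNReal.ofReal (‖foot u x + s • u‖ ^ 2)) ∧
      ((∫⁻ s in chord u (foot u x) K, ENNReal.ofReal (‖foot u x + s • u‖ ^ 2)) ≤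
        (∫⁻ s in chord u (foot u x) (sym u K), ENNReal.ofReal (‖foot u x + s • u‖ ^ 2)) →
        volume (chord u (foot u x) (K \ refl u ⁻¹' K)) = 0) := by
    intro x
    have hx := foot_inner hu x
    set z := foot u x with hz
    rcases chord_cases hu z hK hc with h | ⟨a, b, hab, h⟩
    · rw [h, chord_sym_empty hu hx h]
      refine ⟨le_rfl, fun _ => ?_⟩
      have : chord u z (K \ refl u ⁻¹' K) ⊆ chord u z K := fun s hs => hs.1
      rw [h] at this
      exact measure_mono_null this (by simp)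
    · rw [h, chord_sym_Icc hu hx hab h]
      simp_rw [norm_line' hu hx]
      rw [int_sq hab (by positivity), int_sq (by linarith) (by positivity)]
      have hid : ‖z‖ ^ 2 * (b - a) + (b ^ 3 - a ^ 3) / 3 =
          (‖z‖ ^ 2 * ((b - a) / 2 - -((b - a) / 2)) +
            (((b - a) / 2) ^ 3 - (-((b - a) / 2)) ^ 3) / 3) + (b - a) * (a + b) ^ 2 / 4 := by ring
      have hba : 0 ≤ b - a := by linarith
      have hnn : 0 ≤ ‖z‖ ^ 2 * ((b - a) / 2 - -((b - a) / 2)) +
            (((b - a) / 2) ^ 3 - (-((b - a) / 2)) ^ 3) / 3 := by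
        have : ((b - a) / 2) ^ 3 - (-((b - a) / 2)) ^ 3 = 2 * ((b - a) / 2) ^ 3 := by ring
        rw [this]
        have h2 : (b - a) / 2 - -((b - a) / 2) = b - a := by ring
        rw [h2]
        positivity
      have hpos := mul_nonneg hba (sq_nonneg (a + b))
      refine ⟨ENNReal.ofReal_le_ofReal (by rw [hid]; linarith), fun hle => ?_⟩
      rw [hid] at hle
      have h3 := (ENNReal.ofReal_le_ofReal_iff hnn).1 hle
      have h4 : (b - a) * (a + b) ^ 2 = 0 := by
        nlinarith [mul_nonneg hba (sq_nonneg (a + b))]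
      rcases mul_eq_zero.1 h4 with h5 | h5
      · have : chord u z (K \ refl u ⁻¹' K) ⊆ chord u z K := fun s hs => hs.1
        rw [h] at this
        refine measure_mono_null this ?_
        rw [Real.volume_Icc, h5]; simp
      · have h6 : a + b = 0 := by simpa using h5
        have : chord u z (K \ refl u ⁻¹' K) = ∅ := by
          ext s
          simp only [mem_empty_iff_false, iff_false]
          rintro ⟨hs1, hs2⟩
          apply hs2
          have h7 : s ∈ chord u z K := hs1
          have h8 : s ∈ chord u z (refl u ⁻¹' K) := by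
            rw [chord_refl hu hx, h]
            rw [h] at h7
            exact ⟨by linarith [h7.2], by linarith [h7.1]⟩
          exact h8
        rw [this]; simp
  have hae := ae_eq_of_ae_le_of_lintegral_le (μ := (volume : Measure E).restrict (slab u))
    (Filter.Eventually.of_forall fun x => (key x).1) (ne_top_of_le_ne_top hfin
      (lintegral_mono fun x => (key x).1))
    (meas_line _ hg K hK.measurableSet).aemeasurable hJ
  have hmr : MeasurableSet (K \ refl u ⁻¹' K) :=
    hK.measurableSet.diff (hK.measurableSet.preimage (refl u).continuous.measurable)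
  have hzero : volume (K \ refl u ⁻¹' K) = 0 := by
    have := setLIntegral_line hu (fun _ => (1 : ℝ≥0∞)) measurable_const hmr
    rw [setLIntegral_one] at this
    rw [this]
    simp_rw [setLIntegral_one]
    rw [lintegral_eq_zero_iff' ?_]
    · filter_upwards [hae] with x hx
      exact (key x).2 hx.ge
    · have hm := meas_line (u := u) (fun _ => (1 : ℝ≥0∞)) measurable_const _ hmr
      simp_rw [setLIntegral_one] at hm
      exact hm.aemeasurable
  exact subset_of_ae hc hK.isClosed (hK.isClosed.preimage (refl u).continuous) hv hzero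

omit [FiniteDimensional ℝ E] [MeasurableSpace E] [BorelSpace E] in
/-- A compact convex nonempty set which is symmetric in all hyperplanes is a ball. -/
theorem ball_of_symm {K : Set E} (hK : IsCompact K) (hc : Convex ℝ K) (hne : K.Nonempty)
    (hs : ∀ u : E, ‖u‖ = 1 → K ⊆ refl u ⁻¹' K) : ∃ r, 0 ≤ r ∧ K = closedBall 0 r := by
  obtain ⟨x₀, hx₀, hmax⟩ := hK.exists_isMaxOn hne continuous_norm.continuousOn
  have hrot : ∀ x ∈ K, ∀ y : E, ‖y‖ = ‖x‖ → y ∈ K := by
    intro x hx y hxy
    by_cases h : x = y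
    · rw [← h]; exact hx
    · have hn : ‖x - y‖ ≠ 0 := by rwa [norm_ne_zero_iff, sub_ne_zero]
      set u : E := ‖x - y‖⁻¹ • (x - y) with hu
      have hu1 : ‖u‖ = 1 := by
        rw [hu, norm_smul, norm_inv, norm_norm, inv_mul_cancel₀ hn]
      have h1 : refl u x ∈ K := hs u hu1 hx
      have h2 : refl u x = y := by
        rw [refl_apply hu1]
        have h3 : ⟪x, x - y⟫ = ‖x - y‖ ^ 2 / 2 := by
          have := @norm_sub_sq_real E _ _ x y
          rw [inner_sub_right, real_inner_self_eq_norm_sq]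
          rw [hxy] at this
          linarith
        have h4 : (2 * ⟪x, u⟫) • u = x - y := by
          rw [hu, inner_smul_right, h3, smul_smul]
          have : 2 * (‖x - y‖⁻¹ * (‖x - y‖ ^ 2 / 2)) * ‖x - y‖⁻¹ = 1 := by
            field_simp
          rw [this, one_smul]
        rw [h4]; abel
      rwa [h2] at h1
  refine ⟨‖x₀‖, norm_nonneg _, Subset.antisymm ?_ ?_⟩
  · intro x hx
    rw [mem_closedBall_zero_iff]
    exact hmax hx
  · intro y hy
    rw [mem_closedBall_zero_iff] at hy
    by_cases hy0 : y = 0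
    · have h1 := hrot x₀ hx₀ (-x₀) (norm_neg _)
      have h2 := hc hx₀ h1 (a := 1 / 2) (b := 1 / 2) (by norm_num) (by norm_num) (by norm_num)
      have : (1 / 2 : ℝ) • x₀ + (1 / 2 : ℝ) • (-x₀) = y := by rw [hy0]; simp
      rwa [this] at h2
    · have hn : 0 < ‖y‖ := norm_pos_iff.2 hy0
      have hr : 0 < ‖x₀‖ := hn.trans_le hy
      set w : E := (‖x₀‖ / ‖y‖) • y with hw
      have hwn : ‖w‖ = ‖x₀‖ := by
        rw [hw, norm_smul, norm_div, norm_norm, norm_norm, div_mul_cancel₀ _ hn.ne']
      have h1 := hrot x₀ hx₀ w hwn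
      have h2 := hrot x₀ hx₀ (-w) (by rw [norm_neg, hwn])
      have h3 : ‖y‖ / ‖x₀‖ ≤ 1 := (div_le_one hr).2 hy
      have h4 : 0 ≤ ‖y‖ / ‖x₀‖ := by positivity
      have h5 := hc h1 h2 (a := (1 + ‖y‖ / ‖x₀‖) / 2) (b := (1 - ‖y‖ / ‖x₀‖) / 2) (by linarith)
        (by linarith) (by ring)
      have : ((1 + ‖y‖ / ‖x₀‖) / 2) • w + ((1 - ‖y‖ / ‖x₀‖) / 2) • (-w) = y := by
        rw [smul_neg, ← sub_eq_add_neg, ← sub_smul, hw, smul_smul]
        have : ((1 + ‖y‖ / ‖x₀‖) / 2 - (1 - ‖y‖ / ‖x₀‖) / 2) * (‖x₀‖ / ‖y‖) = 1 := by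
          field_simp
          ring
        rw [this, one_smul]
      rwa [this] at h5

end strict

variable {d : ℕ}

/-- The class in which we minimise. -/
structure Cls (R : ℝ) (V : ℝ≥0∞) (D : ℝ) (A : Set (E d)) : Prop where
  compact : IsCompact A
  nonempty : A.Nonempty
  convex : Convex ℝ A
  sub : A ⊆ closedBall 0 R
  vol : volume A = V
  db : DB A D

lemma JJ2_ne_top {R : ℝ} {V : ℝ≥0∞} {D : ℝ} {A : Set (E d)} (h : Cls R V D A) : JJ2 A ≠ ⊤ := by
  unfold JJ2
  have h1 : ∫⁻ x in A, ENNReal.ofReal (‖x‖ ^ 2) ≤ ∫⁻ _ in A, ENNReal.ofReal (R ^ 2) := by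
    apply setLIntegral_mono' h.compact.measurableSet
    intro x hx
    apply ENNReal.ofReal_le_ofReal
    have := mem_closedBall_zero_iff.1 (h.sub hx)
    exact pow_le_pow_left₀ (norm_nonneg _) this 2
  refine ne_top_of_le_ne_top ?_ h1
  rw [setLIntegral_const]
  exact ENNReal.mul_ne_top ENNReal.ofReal_ne_top h.compact.measure_lt_top.ne

lemma Cls.sym {R : ℝ} {V : ℝ≥0∞} {D : ℝ} {A : Set (E d)} (h : Cls R V D A) {u : E d}
    (hu : ‖u‖ = 1) : Cls R V D (sym u A) where
  compact := sym_isCompact hu h.compact h.convex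
  nonempty := sym_nonempty hu h.compact h.convex h.nonempty
  convex := sym_convex hu h.compact h.convex
  sub := sym_subset_ball hu h.compact h.convex h.sub
  vol := by rw [sym_volume hu h.compact h.convex, h.vol]
  db := db_sym h.db hu h.compact h.convex

lemma db_limit {A : ℕ → Set (E d)} {L : Set (E d)} {D : ℝ} (hA : ∀ k, (A k).Nonempty)
    (hL : L.Nonempty) (hA' : ∀ k, IsCompact (A k)) (hL' : IsCompact L)
    (hlim : Tendsto (fun k => hausdorffDist (A k) L) atTop (𝓝 0)) (h : ∀ k, DB (A k) D) :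
    DB L D := by
  intro v hv
  have hex : ∀ k : ℕ, ∀ i, ∃ w ∈ A k, dist w (v i) < hausdorffDist (A k) L + 1 / ((k : ℝ) + 1) := by
    intro k i
    have h1 : hausdorffDist (A k) L < hausdorffDist (A k) L + 1 / ((k : ℝ) + 1) := by
      have : (0 : ℝ) < 1 / ((k : ℝ) + 1) := by positivity
      linarith
    exact Metric.exists_dist_lt_of_hausdorffDist_lt' (hv i) h1 (haus_fin (hA k) hL (hA' k) hL')
  choose w hw1 hw2 using hex
  have hr : Tendsto (fun k : ℕ => hausdorffDist (A k) L + 1 / ((k : ℝ) + 1)) atTop (𝓝 0) := by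
    have := hlim.add tendsto_one_div_add_atTop_nhds_zero_nat
    simpa using this
  have hwl : Tendsto w atTop (𝓝 v) := by
    rw [tendsto_pi_nhds]
    intro i
    rw [tendsto_iff_dist_tendsto_zero]
    exact squeeze_zero (fun _ => dist_nonneg) (fun k => (hw2 k i).le) hr
  have h2 : Tendsto (fun k => |om d (w k)|) atTop (𝓝 |om d v|) :=
    ((om_continuous.tendsto v).comp hwl).abs
  exact le_of_tendsto h2 (Filter.Eventually.of_forall fun k => h k _ (hw1 k))

/-- The minimiser of the second moment. -/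
theorem exists_min {R : ℝ} {V : ℝ≥0∞} {D : ℝ} {M : Set (E d)} (h : Cls R V D M) :
    ∃ L : Set (E d), Cls R V D L ∧ ∀ A : Set (E d), Cls R V D A → JJ2 L ≤ JJ2 A := by
  set S : Set ℝ≥0∞ := JJ2 '' {A : Set (E d) | Cls R V D A} with hS
  have hne : S.Nonempty := ⟨_, M, h, rfl⟩
  obtain ⟨s, -, hs2, hs3⟩ := exists_seq_tendsto_sInf hne (OrderBot.bddBelow S)
  choose A hA1 hA2 using hs3
  obtain ⟨L, hL1, hL2, hL3, hL4, φ, hφ, hlim⟩ := blaschke A R (fun n => (hA1 n).compact)
    (fun n => (hA1 n).nonempty) (fun n => (hA1 n).convex) (fun n => (hA1 n).sub)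
  have hR : ∀ x ∈ closedBall (0 : E d) R, ENNReal.ofReal (‖x‖ ^ 2) ≤ ENNReal.ofReal (R ^ 2) := by
    intro x hx
    apply ENNReal.ofReal_le_ofReal
    exact pow_le_pow_left₀ (norm_nonneg _) (mem_closedBall_zero_iff.1 hx) 2
  have t1 := tendsto_lint (fun k => (hA1 (φ k)).nonempty) hL2 (fun k => (hA1 (φ k)).compact) hL1
    (fun k => (hA1 (φ k)).convex) hL3 hlim (fun k => (hA1 (φ k)).sub)
    (fun x : E d => ENNReal.ofReal (‖x‖ ^ 2)) (by fun_prop) ENNReal.ofReal_ne_top hR
  have t2 := tendsto_lint (fun k => (hA1 (φ k)).nonempty) hL2 (fun k => (hA1 (φ k)).compact) hL1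
    (fun k => (hA1 (φ k)).convex) hL3 hlim (fun k => (hA1 (φ k)).sub)
    (fun _ : E d => (1 : ℝ≥0∞)) measurable_const ENNReal.one_ne_top (fun _ _ => le_rfl)
  simp_rw [setLIntegral_one] at t2
  have hvol : volume L = V := by
    have : (fun k => volume (A (φ k))) = fun _ => V := funext fun k => (hA1 (φ k)).vol
    rw [this] at t2
    exact tendsto_nhds_unique t2 tendsto_const_nhds
  have hJ : JJ2 L = sInf S := by
    have h1 : (fun k => ∫⁻ x in A (φ k), ENNReal.ofReal (‖x‖ ^ 2)) = fun k => s (φ k) :=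
      funext fun k => hA2 (φ k)
    rw [h1] at t1
    exact tendsto_nhds_unique t1 (hs2.comp hφ.tendsto_atTop)
  refine ⟨L, ⟨hL1, hL2, hL3, hL4, hvol, ?_⟩, fun B hB => ?_⟩
  · exact db_limit (fun k => (hA1 (φ k)).nonempty) hL2 (fun k => (hA1 (φ k)).compact) hL1 hlim
      (fun k => (hA1 (φ k)).db)
  · rw [hJ]
    exact sInf_le ⟨B, hB, rfl⟩

/-- **The inequality.** -/
theorem volume_le {M : Set (E d)} {D : ℝ} (hM : IsCompact M) (hc : Convex ℝ M) (h : DB M D) :
    volume M ≤ ENNReal.ofReal D * volume (closedBall (0 : E d) 1) := by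
  by_cases hv : volume M = 0
  · rw [hv]; exact zero_le
  have hne : M.Nonempty := by
    by_contra h0
    rw [not_nonempty_iff_eq_empty] at h0
    rw [h0] at hv
    simp at hv
  obtain ⟨R, hR⟩ := hM.isBounded.subset_closedBall 0
  have hcls : Cls R (volume M) D M := ⟨hM, hne, hc, hR, rfl, h⟩
  obtain ⟨L, hL, hmin⟩ := exists_min hcls
  have hLv : volume L ≠ 0 := by rw [hL.vol]; exact hv
  obtain ⟨r, hr, hLr⟩ := ball_of_symm hL.compact hL.convex hL.nonempty fun u hu =>
    symm_of_JJ2 hu hL.compact hL.convex hLv (JJ2_ne_top hL) (hmin _ (hL.sym hu))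
  have hD : r ^ d ≤ D := by
    have h1 := hL.db (fun i => r • EuclideanSpace.basisFun (Fin d) ℝ i) (fun i => by
      rw [hLr, mem_closedBall_zero_iff, norm_smul, Real.norm_eq_abs, abs_of_nonneg hr]
      simp)
    have h2 := (om d).toMultilinearMap.map_smul_univ (fun _ => r)
      (fun i => EuclideanSpace.basisFun (Fin d) ℝ i)
    simp only [Finset.prod_const, Finset.card_univ, Fintype.card_fin] at h2
    have h3 : om d (fun i => r • EuclideanSpace.basisFun (Fin d) ℝ i) = r ^ d := by
      have : om d (fun i => r • EuclideanSpace.basisFun (Fin d) ℝ i) =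
        r ^ d • om d (fun i => EuclideanSpace.basisFun (Fin d) ℝ i) := h2
      rw [this, om_self, smul_eq_mul, mul_one]
    rw [h3, abs_of_nonneg (by positivity)] at h1
    exact h1
  rw [← hL.vol, hLr, Measure.addHaar_closedBall _ _ hr, Measure.addHaar_closedBall _ _ zero_le_one]
  simp only [finrank_euclideanSpace, Fintype.card_fin, one_pow, ENNReal.ofReal_one, one_mul]
  gcongr

end Pool.Agent.K6.H11.GM
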