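import Pool.Agent.K6.H11.GM.Ellips

/-!
Volumes of cross-polytopes.
-/

set_option autoImplicit false

open MeasureTheory Set Filter Topology Metric Function
open scoped RealInnerProductSpace ENNReal Nat

namespace Pool.Agent.K6.H11.GM

variable {d : ℕ}

/-- The cross-polytope with the vertices `± v i`. -/
def cross (v : Fin d → E d) : Set (E d) := convexHull ℝ {x | ∃ i, x = v i ∨ x = -v i}

/-- The standard basis. -/
noncomputable def stdb (d : ℕ) : Fin d → E d := fun i => EuclideanSpace.basisFun (Fin d) ℝ i

lemma stdb_apply (i j : Fin d) : stdb d i j = if j = i then 1 else 0 := by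
  simp [stdb]

lemma sum_abs_stdb (i : Fin d) : ∑ j, |stdb d i j| ≤ 1 := by
  have h : ∀ j, |stdb d i j| = if j = i then 1 else 0 := by
    intro j
    rw [stdb_apply]
    split_ifs <;> simp
  simp_rw [h]
  simp

lemma cross_std (i₀ : Fin d) : cross (stdb d) = {x : E d | ∑ i, |x i| ≤ 1} := by
  apply Subset.antisymm
  · apply convexHull_min
    · rintro x ⟨i, rfl | rfl⟩
      · exact sum_abs_stdb i
      · show ∑ j, |(-stdb d i) j| ≤ 1
        have : ∀ j, |(-stdb d i) j| = |stdb d i j| := fun j => by
          rw [PiLp.neg_apply, abs_neg]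
        simp_rw [this]
        exact sum_abs_stdb i
    · intro x hx y hy a b ha hb hab
      show ∑ i, |(a • x + b • y) i| ≤ 1
      calc ∑ i, |(a • x + b • y) i| ≤ ∑ i, (a * |x i| + b * |y i|) := by
            apply Finset.sum_le_sum
            intro i _
            rw [PiLp.add_apply, PiLp.smul_apply, PiLp.smul_apply, smul_eq_mul, smul_eq_mul]
            refine (abs_add_le _ _).trans ?_
            rw [abs_mul, abs_mul, abs_of_nonneg ha, abs_of_nonneg hb]
        _ = a * ∑ i, |x i| + b * ∑ i, |y i| := by
            rw [Finset.sum_add_distrib, Finset.mul_sum, Finset.mul_sum]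
        _ ≤ a * 1 + b * 1 := add_le_add (mul_le_mul_of_nonneg_left hx ha)
            (mul_le_mul_of_nonneg_left hy hb)
        _ = 1 := by rw [mul_one, mul_one, hab]
  · intro x hx
    have hx' : ∑ i, |x i| ≤ 1 := hx
    have hc : Convex ℝ (cross (stdb d)) := convex_convexHull ℝ _
    have hv1 : ∀ i, stdb d i ∈ cross (stdb d) := fun i => subset_convexHull ℝ _ ⟨i, Or.inl rfl⟩
    have hv2 : ∀ i, -stdb d i ∈ cross (stdb d) := fun i => subset_convexHull ℝ _ ⟨i, Or.inr rfl⟩
    have h0 : (0 : E d) ∈ cross (stdb d) := by
      have := hc (hv1 i₀) (hv2 i₀) (a := 1 / 2) (b := 1 / 2) (by norm_num) (by norm_num)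
        (by norm_num)
      have e : (1 / 2 : ℝ) • stdb d i₀ + (1 / 2 : ℝ) • (-stdb d i₀) = 0 := by simp
      rwa [e] at this
    set S : ℝ := ∑ i, |x i| with hS
    have hS0 : 0 ≤ S := Finset.sum_nonneg fun i _ => abs_nonneg _
    rcases hS0.eq_or_lt with h | h
    · have : x = 0 := by
        ext i
        have h1 := (Finset.sum_eq_zero_iff_of_nonneg (fun i _ => abs_nonneg (x i))).1 h.symm i
          (Finset.mem_univ i)
        simpa using h1
      rw [this]; exact h0
    · set w : Fin d → E d := fun i => if 0 ≤ x i then stdb d i else -stdb d i with hw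
      have hwm : ∀ i, w i ∈ cross (stdb d) := by
        intro i
        simp only [hw]
        split_ifs
        · exact hv1 i
        · exact hv2 i
      have h1 : ∑ i, (|x i| / S) • w i ∈ cross (stdb d) :=
        hc.sum_mem (fun i _ => by positivity) (by rw [← Finset.sum_div, ← hS, div_self h.ne'])
          (fun i _ => hwm i)
      have h2 := hc h1 h0 (a := S) (b := 1 - S) hS0 (by linarith) (by ring)
      have e : S • ∑ i, (|x i| / S) • w i + (1 - S) • (0 : E d) = x := by
        rw [smul_zero, add_zero, Finset.smul_sum]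
        have e1 : ∀ i, S • (|x i| / S) • w i = x i • stdb d i := by
          intro i
          rw [smul_smul, mul_div_cancel₀ _ h.ne']
          simp only [hw]
          split_ifs with h3
          · rw [abs_of_nonneg h3]
          · rw [abs_of_neg (not_le.1 h3)]; module
        simp_rw [e1]
        ext j
        have e2 : (∑ i, x i • stdb d i) j = ∑ i, x i * stdb d i j := by
          have : ∀ s : Finset (Fin d), (∑ i ∈ s, x i • stdb d i) j =
              ∑ i ∈ s, x i * stdb d i j := by
            intro s
            induction s using Finset.induction_on with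
            | empty => simp
            | insert a s ha ih =>
              rw [Finset.sum_insert ha, Finset.sum_insert ha, PiLp.add_apply, ih,
                PiLp.smul_apply, smul_eq_mul]
          exact this Finset.univ
        rw [e2]
        simp [stdb_apply]
      rwa [e] at h2

lemma volume_cross_std (i₀ : Fin d) :
    volume (cross (stdb d)) = ENNReal.ofReal (2 ^ d / d !) := by
  have : Nonempty (Fin d) := ⟨i₀⟩
  rw [cross_std i₀]
  have h1 := (PiLp.volume_preserving_ofLp (Fin d)).measure_preimage
    (s := {x : Fin d → ℝ | ∑ i, |x i| ≤ 1}) (by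
      apply MeasurableSet.nullMeasurableSet
      exact (isClosed_le (by fun_prop) continuous_const).measurableSet)
  have e : (WithLp.ofLp : E d → (Fin d → ℝ)) ⁻¹' {x : Fin d → ℝ | ∑ i, |x i| ≤ 1} =
      {x : E d | ∑ i, |x i| ≤ 1} := rfl
  rw [← e, h1]
  have h2 := MeasureTheory.volume_sum_rpow_le (Fin d) (p := 1) le_rfl 1
  simp only [Real.rpow_one, div_one, Fintype.card_fin, ENNReal.ofReal_one, one_pow, one_mul] at h2
  rw [h2]
  congr 1
  have e1 : Real.Gamma (1 + 1) = 1 := by norm_num [Real.Gamma_two]
  rw [e1, mul_one, Real.Gamma_nat_eq_factorial]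

/-- The volume of a cross-polytope. -/
theorem volume_cross (i₀ : Fin d) (v : Fin d → E d) :
    volume (cross v) = ENNReal.ofReal (2 ^ d / d ! * |om d v|) := by
  set b := (EuclideanSpace.basisFun (Fin d) ℝ).toBasis with hb
  let L : E d →ₗ[ℝ] E d := b.constr ℝ v
  have hL : ∀ i, L (stdb d i) = v i := by
    intro i
    have h1 : stdb d i = b i := by
      rw [hb, OrthonormalBasis.coe_toBasis]; rfl
    rw [h1]
    exact b.constr_basis ℝ v i
  have hdet : om d v = LinearMap.det L := by
    have h1 : v = L ∘ stdb d := funext fun i => (hL i).symm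
    have h2 := b.det_comp L (stdb d)
    rw [← h1] at h2
    have h3 : b.det (stdb d) = 1 := om_self
    rw [h3, mul_one] at h2
    exact h2
  have himg : cross v = L '' cross (stdb d) := by
    unfold cross
    rw [LinearMap.image_convexHull]
    congr 1
    ext x
    constructor
    · rintro ⟨i, rfl | rfl⟩
      · exact ⟨stdb d i, ⟨i, Or.inl rfl⟩, hL i⟩
      · exact ⟨-stdb d i, ⟨i, Or.inr rfl⟩, by rw [map_neg, hL]⟩
    · rintro ⟨y, ⟨i, rfl | rfl⟩, rfl⟩
      · exact ⟨i, Or.inl (hL i)⟩
      · exact ⟨i, Or.inr (by rw [map_neg, hL])⟩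
  rw [himg, Measure.addHaar_image_linearMap, volume_cross_std i₀, ← hdet,
    ← ENNReal.ofReal_mul (abs_nonneg _)]
  congr 1
  ring

/-- The determinant of a family mapped by a linear map. -/
lemma om_map (T : E d →ₗ[ℝ] E d) (v : Fin d → E d) :
    om d (fun i => T (v i)) = LinearMap.det T * om d v :=
  (EuclideanSpace.basisFun (Fin d) ℝ).toBasis.det_comp T v

end Pool.Agent.K6.H11.GM
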