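import Mathlib
import Pool.Agent.H318R3.St.Main

/-!
Determinant bounds and Steiner symmetrization.
-/

set_option autoImplicit false

open MeasureTheory Set Filter Topology Metric Function
open scoped RealInnerProductSpace ENNReal
open Pool.Agent.H318R3.St

namespace Pool.Agent.K6.H11.GM

section alt

variable {ι : Type*} [DecidableEq ι] {E : Type*} [AddCommGroup E] [Module ℝ E]

lemma alt_aux (f : E [⋀^ι]→ₗ[ℝ] ℝ) (x : ι → E) (u : E) (y : ι → ℝ) (a : ι) (s : Finset ι)
    (ha : a ∉ s) :
    f (update (fun i => if i ∈ s then x i + y i • u else x i) a u) = f (update x a u) := by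
  induction s using Finset.induction_on with
  | empty => simp
  | insert b s hb ih =>
    have hab : a ≠ b := fun h => ha (h ▸ Finset.mem_insert_self _ _)
    have has : a ∉ s := fun h => ha (Finset.mem_insert_of_mem h)
    have e : update (fun i => if i ∈ insert b s then x i + y i • u else x i) a u =
        update (update (fun i => if i ∈ s then x i + y i • u else x i) a u) b
          (x b + y b • u) := by
      funext i
      by_cases hib : i = b
      · subst hib
        rw [update_self, update_of_ne hab.symm]
        simp
      · rw [update_of_ne hib]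
        by_cases hia : i = a
        · subst hia; simp
        · rw [update_of_ne hia, update_of_ne hia]
          simp [Finset.mem_insert, hib]
    have e2 : update (update (fun i => if i ∈ s then x i + y i • u else x i) a u) b (x b) =
        update (fun i => if i ∈ s then x i + y i • u else x i) a u := by
      funext i
      by_cases hib : i = b
      · subst hib
        rw [update_self, update_of_ne hab.symm]
        simp [hb]
      · rw [update_of_ne hib]
    have e3 : f (update (update (fun i => if i ∈ s then x i + y i • u else x i) a u) b u) = 0 :=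
      f.map_eq_zero_of_eq _ (i := a) (j := b) (by
        rw [update_of_ne hab, update_self, update_self]) hab
    rw [e, f.map_update_add, f.map_update_smul, e2, e3, smul_zero, add_zero, ih has]

/-- An alternating form on a line of perturbations in one direction. -/
lemma alt_add_smul (f : E [⋀^ι]→ₗ[ℝ] ℝ) (x : ι → E) (u : E) (y : ι → ℝ) (s : Finset ι) :
    f (fun i => if i ∈ s then x i + y i • u else x i) =
      f x + ∑ i ∈ s, y i * f (update x i u) := by
  induction s using Finset.induction_on with
  | empty => simp
  | insert b s hb ih =>
    have e : (fun i => if i ∈ insert b s then x i + y i • u else x i) =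
        update (fun i => if i ∈ s then x i + y i • u else x i) b (x b + y b • u) := by
      funext i
      by_cases hib : i = b
      · subst hib
        simp
      · rw [update_of_ne hib]
        simp [Finset.mem_insert, hib]
    have e2 : update (fun i => if i ∈ s then x i + y i • u else x i) b (x b) =
        (fun i => if i ∈ s then x i + y i • u else x i) := by
      funext i
      by_cases hib : i = b
      · subst hib
        simp [hb]
      · rw [update_of_ne hib]
    rw [e, f.map_update_add, f.map_update_smul, e2, alt_aux f x u y b s hb, ih,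
      Finset.sum_insert hb, smul_eq_mul]
    ring

lemma alt_add_smul_univ [Fintype ι] (f : E [⋀^ι]→ₗ[ℝ] ℝ) (x : ι → E) (u : E) (y : ι → ℝ) :
    f (fun i => x i + y i • u) = f x + ∑ i, y i * f (update x i u) := by
  have := alt_add_smul f x u y Finset.univ
  simpa using this

end alt

/-- `ℝ^d` with the Euclidean norm. -/
abbrev E (d : ℕ) := EuclideanSpace ℝ (Fin d)

/-- The determinant. -/
noncomputable def om (d : ℕ) : E d [⋀^Fin d]→ₗ[ℝ] ℝ :=
  (EuclideanSpace.basisFun (Fin d) ℝ).toBasis.det

variable {d : ℕ}

lemma om_le (v : Fin d → E d) : |om d v| ≤ ∏ i, ‖v i‖ := by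
  have : Fact (Module.finrank ℝ (E d) = d) := ⟨by simp⟩
  have o : Orientation ℝ (E d) (Fin d) :=
    (EuclideanSpace.basisFun (Fin d) ℝ).toBasis.orientation
  rw [om, ← o.volumeForm_robust']
  exact o.abs_volumeForm_apply_le v

lemma om_self : om d (fun i => EuclideanSpace.basisFun (Fin d) ℝ i) = 1 := by
  have := (EuclideanSpace.basisFun (Fin d) ℝ).toBasis.det_self
  rw [OrthonormalBasis.coe_toBasis] at this
  exact this

lemma om_continuous : Continuous fun v : Fin d → E d => om d v := by
  have : (fun v : Fin d → E d => om d v) =
      fun v => Matrix.det (fun i j => (EuclideanSpace.basisFun (Fin d) ℝ).toBasis.repr (v j) i) := by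
    funext v
    rw [om, Module.Basis.det_apply]
    rfl
  rw [this]
  apply Continuous.matrix_det
  refine continuous_pi fun i => continuous_pi fun j => ?_
  have h : (fun v : Fin d → E d => (EuclideanSpace.basisFun (Fin d) ℝ).toBasis.repr (v j) i) =
      fun v => v j i := by
    funext v
    simp
  rw [h]
  fun_prop

/-- vectors of a hyperplane have determinant zero -/
lemma om_perp {u : E d} (hu : ‖u‖ = 1) (x : Fin d → E d) (hx : ∀ i, ⟪x i, u⟫ = 0) :
    om d x = 0 := by
  apply (om d).map_linearDependent
  intro hli
  have htop := hli.span_eq_top_of_card_eq_finrank' (by simp)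
  have hmem : u ∈ Submodule.span ℝ (range x) := by rw [htop]; trivial
  have hperp : ∀ w ∈ Submodule.span ℝ (range x), ⟪w, u⟫ = 0 := by
    intro w hw
    induction hw using Submodule.span_induction with
    | mem w hw => obtain ⟨i, rfl⟩ := hw; exact hx i
    | zero => simp
    | add a b _ _ ha hb => rw [inner_add_left, ha, hb, add_zero]
    | smul c a _ ha => rw [inner_smul_left, ha, mul_zero]
  have := hperp u hmem
  rw [inner_self_one hu] at this
  exact one_ne_zero this

/-- All determinants of vectors of `A` are at most `D`. -/
def DB (A : Set (E d)) (D : ℝ) : Prop := ∀ v : Fin d → E d, (∀ i, v i ∈ A) → |om d v| ≤ D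

lemma DB.mono {A B : Set (E d)} {D : ℝ} (h : DB B D) (hAB : A ⊆ B) : DB A D :=
  fun v hv => h v fun i => hAB (hv i)

/-- The determinant bound passes to the convex hull. -/
lemma db_convexHull {A : Set (E d)} {D : ℝ} (h : DB A D) : DB (convexHull ℝ A) D := by
  have key : ∀ s : Finset (Fin d), ∀ v : Fin d → E d,
      (∀ i, i ∉ s → v i ∈ A) → (∀ i, i ∈ s → v i ∈ convexHull ℝ A) → |om d v| ≤ D := by
    intro s
    induction s using Finset.induction_on with
    | empty =>
      intro v hv _
      exact h v fun i => hv i (Finset.notMem_empty i)
    | insert a s ha ih =>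
      intro v hv1 hv2
      -- the set of admissible replacements in slot `a` is convex and contains `A`
      have hconv : Convex ℝ {w : E d | |om d (update v a w)| ≤ D} := by
        intro w hw w' hw' p q hp hq hpq
        simp only [mem_ofPred_eq] at hw hw' ⊢
        rw [(om d).map_update_add, (om d).map_update_smul, (om d).map_update_smul]
        simp only [smul_eq_mul]
        calc |p * om d (update v a w) + q * om d (update v a w')|
            ≤ |p * om d (update v a w)| + |q * om d (update v a w')| := abs_add_le _ _
          _ = p * |om d (update v a w)| + q * |om d (update v a w')| := by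
              rw [abs_mul, abs_mul, abs_of_nonneg hp, abs_of_nonneg hq]
          _ ≤ p * D + q * D := add_le_add (mul_le_mul_of_nonneg_left hw hp)
              (mul_le_mul_of_nonneg_left hw' hq)
          _ = D := by rw [← add_mul, hpq, one_mul]
      have hsub : A ⊆ {w : E d | |om d (update v a w)| ≤ D} := by
        intro w hw
        apply ih
        · intro i hi
          by_cases hia : i = a
          · subst hia; simpa using hw
          · rw [update_of_ne hia]
            exact hv1 i (by simp [Finset.mem_insert, hia, hi])
        · intro i hi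
          have hia : i ≠ a := fun h => ha (h ▸ hi)
          rw [update_of_ne hia]
          exact hv2 i (Finset.mem_insert_of_mem hi)
      have := convexHull_min hsub hconv (hv2 a (Finset.mem_insert_self _ _))
      simpa using this
  intro v hv
  exact key Finset.univ v (fun i hi => absurd (Finset.mem_univ i) hi) fun i _ => hv i

/-- Steiner symmetrization does not increase the largest determinant. -/
theorem db_sym {M : Set (E d)} {D : ℝ} (h : DB M D) {u : E d} (hu : ‖u‖ = 1)
    (hM : IsCompact M) (hc : Convex ℝ M) : DB (sym u M) D := by
  intro v hv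
  have hx : ∀ i, ⟪foot u (v i), u⟫ = 0 := fun i => foot_inner hu (v i)
  have hdat : ∀ i, ∃ c : ℝ, foot u (v i) + (c + ⟪v i, u⟫) • u ∈ M ∧
      foot u (v i) + (c - ⟪v i, u⟫) • u ∈ M := by
    intro i
    have h1 : foot u (v i) + ⟪v i, u⟫ • u ∈ sym u M := by rw [foot_add]; exact hv i
    rw [mem_sym_line hu (hx i)] at h1
    obtain ⟨hne, hle⟩ := h1
    rcases chord_cases hu (foot u (v i)) hM hc with h0 | ⟨a, b, hab, h0⟩
    · rw [h0] at hne; exact absurd hne not_nonempty_empty
    · rw [h0, Real.volume_Icc, ENNReal.toReal_ofReal (by linarith)] at hle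
      have hm : ∀ s, s ∈ Icc a b → foot u (v i) + s • u ∈ M := by
        intro s hs
        have : s ∈ chord u (foot u (v i)) M := by rw [h0]; exact hs
        exact this
      have h3 := abs_le.1 (show |⟪v i, u⟫| ≤ (b - a) / 2 by linarith)
      exact ⟨(a + b) / 2, hm _ ⟨by linarith [h3.1], by linarith [h3.2]⟩,
        hm _ ⟨by linarith [h3.2], by linarith [h3.1]⟩⟩
  choose c hc1 hc2 using hdat
  have e1 := alt_add_smul_univ (om d) (fun i => foot u (v i)) u (fun i => c i + ⟪v i, u⟫)
  have e2 := alt_add_smul_univ (om d) (fun i => foot u (v i)) u (fun i => c i - ⟪v i, u⟫)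
  have e3 := alt_add_smul_univ (om d) (fun i => foot u (v i)) u (fun i => ⟪v i, u⟫)
  rw [om_perp hu _ hx, zero_add] at e1 e2 e3
  have e4 : (fun i => foot u (v i) + ⟪v i, u⟫ • u) = v := funext fun i => foot_add u (v i)
  rw [e4] at e3
  have b1 := h _ hc1
  have b2 := h _ hc2
  rw [e1] at b1
  rw [e2] at b2
  have e5 : 2 * om d v = (∑ i, (c i + ⟪v i, u⟫) * om d (update (fun i => foot u (v i)) i u)) -
      ∑ i, (c i - ⟪v i, u⟫) * om d (update (fun i => foot u (v i)) i u) := by
    rw [e3, ← Finset.sum_sub_distrib, Finset.mul_sum]
    refine Finset.sum_congr rfl fun i _ => ?_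
    ring
  have b1' := abs_le.1 b1
  have b2' := abs_le.1 b2
  rw [abs_le]
  constructor <;> linarith [b1'.1, b1'.2, b2'.1, b2'.2]

end Pool.Agent.K6.H11.GM
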