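import Pool.Agent.K6.H11.GM.Plane

/-!
Extremal bodies are ellipsoids.
-/

set_option autoImplicit false

open MeasureTheory Set Filter Topology Metric Function
open scoped RealInnerProductSpace ENNReal

namespace Pool.Agent.K6.H11.GM

/-- A copy of `ℝ^d` without norm. -/
def W (d : ℕ) : Type := E d

noncomputable instance (d : ℕ) : AddCommGroup (W d) := inferInstanceAs (AddCommGroup (E d))
noncomputable instance (d : ℕ) : Module ℝ (W d) := inferInstanceAs (Module ℝ (E d))
instance (d : ℕ) : Module.Finite ℝ (W d) := inferInstanceAs (Module.Finite ℝ (E d))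

lemma finrank_W (d : ℕ) : Module.finrank ℝ (W d) = d := by
  have : Module.finrank ℝ (E d) = d := by simp
  exact this

variable {d : ℕ}

theorem Ext.ellipsoid {M : Set (E d)} {D : ℝ} (h : Ext M D) (i₀ : Fin d) :
    ∃ T : E d ≃ₗ[ℝ] E d, M = T '' closedBall (0 : E d) 1 := by
  have hnhds : M ∈ 𝓝 (0 : E d) := mem_interior_iff_mem_nhds.1 h.int
  have habs : Absorbent ℝ M := absorbent_nhds_zero hnhds
  have hgs : ∀ (c : ℝ) (x : E d), gauge M (c • x) = |c| * gauge M x := by
    intro c x
    rcases le_total 0 c with hc | hc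
    · rw [gauge_smul_of_nonneg hc, abs_of_nonneg hc, smul_eq_mul]
    · have e : c • x = -((-c) • x) := by module
      rw [e, gauge_neg (fun x hx => h.symm x hx), gauge_smul_of_nonneg (by linarith),
        abs_of_nonpos hc, smul_eq_mul]
  let nrm : Norm (W d) := ⟨fun x => gauge M (x : E d)⟩
  have hcore : NormedSpace.Core ℝ (W d) :=
    { norm_nonneg := fun x => gauge_nonneg (x : E d)
      norm_smul := fun c x => hgs c (x : E d)
      norm_triangle := fun x y => gauge_add_le h.convex habs (x : E d) (y : E d)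
      norm_eq_zero_iff := fun x => gauge_eq_zero habs
        ((NormedSpace.isVonNBounded_iff ℝ).2 h.compact.isBounded) }
  let _ : NormedAddCommGroup (W d) := NormedAddCommGroup.ofCore hcore
  let _ : NormedSpace ℝ (W d) := NormedSpace.ofCore hcore
  have hnorm : ∀ x : W d, ‖x‖ = gauge M (x : E d) := fun _ => rfl
  have hpar : ∀ x y : W d, ‖x + y‖ * ‖x + y‖ + ‖x - y‖ * ‖x - y‖ =
      2 * (‖x‖ * ‖x‖ + ‖y‖ * ‖y‖) := by
    intro x y
    have := h.parallelogram i₀ (x : E d) (y : E d)
    simp only [sq] at this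
    exact this
  let _ : InnerProductSpace ℝ (W d) := InnerProductSpace.ofNorm (𝕜 := ℝ) hpar
  let b := (stdOrthonormalBasis ℝ (W d)).reindex (finCongr (finrank_W d))
  let T : E d ≃ₗ[ℝ] E d := b.repr.symm.toLinearEquiv
  have hT : ∀ x : E d, gauge M (T x) = ‖x‖ := by
    intro x
    have h1 : ‖b.repr.symm x‖ = ‖x‖ := b.repr.symm.norm_map x
    exact h1
  refine ⟨T, ?_⟩
  have hmem : ∀ y : E d, y ∈ M ↔ gauge M y ≤ 1 := by
    intro y
    rw [gauge_le_one_iff_mem_closure h.convex hnhds, h.compact.isClosed.closure_eq]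
  ext y
  rw [hmem]
  constructor
  · intro hy
    refine ⟨T.symm y, ?_, T.apply_symm_apply y⟩
    rw [mem_closedBall_zero_iff, ← hT, T.apply_symm_apply]
    exact hy
  · rintro ⟨x, hx, rfl⟩
    rw [hT]
    exact mem_closedBall_zero_iff.1 hx

end Pool.Agent.K6.H11.GM
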