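import Pool.Agent.K6.H11.GM.Ball

/-!
Extremal bodies: every boundary point is a vertex of a maximal cross-polytope.
-/

set_option autoImplicit false

open MeasureTheory Set Filter Topology Metric Function
open scoped RealInnerProductSpace ENNReal
open Pool.Agent.H318R3.St

namespace Pool.Agent.K6.H11.GM

variable {d : ℕ}

/-- Symmetric convex bodies with equality in `volume_le`. -/
structure Ext (M : Set (E d)) (D : ℝ) : Prop where
  compact : IsCompact M
  convex : Convex ℝ M
  symm : ∀ x ∈ M, -x ∈ M
  int : (0 : E d) ∈ interior M
  db : DB M D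
  vol : volume M = ENNReal.ofReal D * volume (closedBall (0 : E d) 1)

lemma zero_mem_interior {M : Set (E d)} (hc : Convex ℝ M) (hs : ∀ x ∈ M, -x ∈ M)
    (hi : (interior M).Nonempty) : (0 : E d) ∈ interior M := by
  obtain ⟨x, hx⟩ := hi
  have hneg : -x ∈ interior M := by
    have h1 : (fun y : E d => -y) '' interior M ⊆ M := by
      rintro _ ⟨y, hy, rfl⟩
      exact hs y (interior_subset hy)
    have h2 : IsOpen ((fun y : E d => -y) '' interior M) :=
      (Homeomorph.neg (E d)).isOpenMap _ isOpen_interior
    exact interior_maximal h1 h2 ⟨x, hx, rfl⟩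
  have := hc.interior hx hneg (a := 1 / 2) (b := 1 / 2) (by norm_num) (by norm_num) (by norm_num)
  have e : (1 / 2 : ℝ) • x + (1 / 2 : ℝ) • (-x) = 0 := by simp
  rwa [e] at this

lemma Ext.D_pos {M : Set (E d)} {D : ℝ} (h : Ext M D) : 0 < D := by
  by_contra hD
  have h1 := h.vol
  rw [ENNReal.ofReal_of_nonpos (not_lt.1 hD), zero_mul] at h1
  have h2 : 0 < volume (interior M) := isOpen_interior.measure_pos volume ⟨0, h.int⟩
  have h3 : volume (interior M) ≤ volume M := measure_mono interior_subset
  rw [h1] at h3
  exact absurd h2 (not_lt.2 h3)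

lemma Ext.vol_ne {M : Set (E d)} {D : ℝ} (h : Ext M D) : volume M ≠ 0 :=
  ((isOpen_interior.measure_pos volume ⟨0, h.int⟩).trans_le (measure_mono interior_subset)).ne'

lemma sym_neg {M : Set (E d)} {u : E d} (hu : ‖u‖ = 1) (hM : IsCompact M) (hc : Convex ℝ M)
    (hs : ∀ x ∈ M, -x ∈ M) : ∀ x ∈ sym u M, -x ∈ sym u M := by
  rintro _ ⟨x, t, rfl, hx, hne, ht⟩
  rcases chord_cases hu x hM hc with h | ⟨a, b, hab, h⟩
  · obtain ⟨s, hs'⟩ := hne
    have : s ∈ chord u x M := hs'
    rw [h] at this
    exact absurd this (notMem_empty _)
  · have h2 : chord u (-x) M = Icc (-b) (-a) := by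
      ext s
      have e : s ∈ chord u (-x) M ↔ -s ∈ chord u x M := by
        constructor
        · intro h1
          have := hs _ h1
          have e2 : -(-x + s • u) = x + (-s) • u := by module
          rw [e2] at this
          exact this
        · intro h1
          have := hs _ h1
          have e2 : -(x + (-s) • u) = -x + s • u := by module
          rw [e2] at this
          exact this
      rw [e, h]
      constructor
      · rintro ⟨h1, h2⟩; exact ⟨by linarith, by linarith⟩
      · rintro ⟨h1, h2⟩; exact ⟨by linarith, by linarith⟩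
    have hx' : ⟪-x, u⟫ = 0 := by rw [inner_neg_left, hx, neg_zero]
    have e3 : -(x + t • u) = -x + (-t) • u := by module
    rw [e3, mem_sym_line hu hx', h2]
    rw [h, Real.volume_Icc, ENNReal.toReal_ofReal (by linarith)] at ht
    rw [Real.volume_Icc, ENNReal.toReal_ofReal (by linarith), nonempty_Icc, abs_neg]
    exact ⟨by linarith, by linarith⟩

lemma Ext.steiner {M : Set (E d)} {D : ℝ} (h : Ext M D) {u : E d} (hu : ‖u‖ = 1) :
    Ext (sym u M) D := by
  have hv : volume (sym u M) = volume M := sym_volume hu h.compact h.convex
  have hc := sym_convex hu h.compact h.convex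
  have hk := sym_isCompact hu h.compact h.convex
  have hs := sym_neg hu h.compact h.convex h.symm
  refine ⟨hk, hc, hs, ?_, db_sym h.db hu h.compact h.convex, by rw [hv, h.vol]⟩
  apply zero_mem_interior hc hs
  exact interior_nonempty_of_vol hc hk.isClosed (by rw [hv]; exact h.vol_ne)

/-- scaled down points are interior -/
lemma Ext.smul_interior {M : Set (E d)} {D : ℝ} (h : Ext M D) {x : E d} (hx : x ∈ M) {t : ℝ}
    (ht0 : 0 ≤ t) (ht : t < 1) : t • x ∈ interior M := by
  have := h.convex.combo_interior_self_mem_interior h.int hx (a := 1 - t) (b := t) (by linarith)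
    ht0 (by ring)
  simpa using this

lemma db_closure {A : Set (E d)} {D : ℝ} (h : DB A D) : DB (closure A) D := by
  intro v hv
  have hcl : IsClosed {w : Fin d → E d | |om d w| ≤ D} :=
    isClosed_le om_continuous.abs continuous_const
  have h1 : Set.pi univ (fun _ : Fin d => A) ⊆ {w : Fin d → E d | |om d w| ≤ D} :=
    fun w hw => h w fun i => hw i (mem_univ i)
  have h2 := closure_minimal h1 hcl
  rw [closure_pi_set] at h2
  exact h2 fun i _ => hv i

/-- **Vertex lemma.** -/
theorem Ext.vertex {N : Set (E d)} {D : ℝ} (h : Ext N D) (i₀ : Fin d) {p : E d} (hp : p ∈ N)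
    (hp' : p ∉ interior N) :
    ∃ v : Fin d → E d, (∀ i, v i ∈ N) ∧ v i₀ = p ∧ |om d v| = D := by
  have hD := h.D_pos
  have h0 : (0 : E d) ∈ N := interior_subset h.int
  have hK : IsCompact (Set.pi univ (fun _ : Fin d => N)) := isCompact_univ_pi fun _ => h.compact
  have hF : Continuous fun v : Fin d → E d => |om d (update v i₀ p)| :=
    (om_continuous.comp (continuous_id.update i₀ continuous_const)).abs
  obtain ⟨v, hv, hmax⟩ := hK.exists_isMaxOn ⟨fun _ => 0, fun _ _ => h0⟩ hF.continuousOn
  have hvN : ∀ i, update v i₀ p i ∈ N := by
    intro i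
    by_cases hi : i = i₀
    · subst hi; simpa using hp
    · rw [update_of_ne hi]; exact hv i (mem_univ i)
  set m : ℝ := |om d (update v i₀ p)| with hm
  have hmD : m ≤ D := h.db _ hvN
  rcases hmD.lt_or_eq with hlt | heq
  swap
  · exact ⟨update v i₀ p, hvN, by simp, heq⟩
  exfalso
  -- enlarge the body
  have hm0 : 0 ≤ m := abs_nonneg _
  set ε : ℝ := (D - m) / (D + 1) with hε
  have hε0 : 0 < ε := by
    rw [hε]
    apply div_pos <;> linarith
  have hεm : (1 + ε) * m ≤ D := by
    have h1 : ε * m ≤ D - m := by
      rw [hε, div_mul_eq_mul_div, div_le_iff₀ (by linarith)]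
      apply mul_le_mul_of_nonneg_left _ (by linarith)
      linarith
    linarith
  set p' : E d := (1 + ε) • p with hp'def
  set S : Set (E d) := N ∪ {p', -p'} with hS
  have hbound : ∀ w : Fin d → E d, (∀ i, w i ∈ N) → ∀ i, |om d (update w i p)| ≤ m := by
    intro w hw i
    by_cases hi : i = i₀
    · subst hi
      exact hmax (fun j _ => hw j)
    · have e : update (w ∘ Equiv.swap i i₀) i₀ p = update w i p ∘ Equiv.swap i i₀ := by
        funext j
        by_cases hj : j = i₀
        · subst hj
          simp
        · rw [update_of_ne hj, comp_apply, comp_apply, update_of_ne]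
          intro h2
          apply hj
          have := congrArg (Equiv.swap i i₀) h2
          rw [Equiv.swap_apply_self, Equiv.swap_apply_left] at this
          exact this
      have h1 : |om d (update (w ∘ Equiv.swap i i₀) i₀ p)| ≤ m :=
        hmax (show (w ∘ Equiv.swap i i₀) ∈ Set.pi univ (fun _ : Fin d => N) from fun j _ => hw _)
      rw [e, AlternatingMap.map_swap _ _ hi, abs_neg] at h1
      exact h1
  have hSdb : DB S D := by
    intro w hw
    by_cases hall : ∀ i, w i ∈ N
    · exact h.db w hall
    · push Not at hall
      obtain ⟨i, hi⟩ := hall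
      have hwi : w i = p' ∨ w i = -p' := by
        rcases hw i with h1 | h1
        · exact absurd h1 hi
        · exact h1
      by_cases hex : ∃ j, j ≠ i ∧ w j ∉ N
      · obtain ⟨j, hji, hj⟩ := hex
        have hwj : w j = p' ∨ w j = -p' := by
          rcases hw j with h1 | h1
          · exact absurd h1 hj
          · exact h1
        have hzero : om d w = 0 := by
          have hcase : w j = w i ∨ w j = -w i := by
            rcases hwi with h1 | h1 <;> rcases hwj with h2 | h2
            · left; rw [h1, h2]
            · right; rw [h1, h2]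
            · right; rw [h1, h2, neg_neg]
            · left; rw [h1, h2]
          rcases hcase with h1 | h1
          · exact (om d).map_eq_zero_of_eq w h1 hji
          · have e : w = update w j (-w i) := by rw [← h1, update_eq_self]
            rw [e, (om d).map_update_neg, (om d).map_update_self w hji, neg_zero]
        rw [hzero, abs_zero]; exact hD.le
      · push Not at hex
        have hw0 : ∀ j, update w i 0 j ∈ N := by
          intro j
          by_cases hj : j = i
          · subst hj; simpa using h0
          · rw [update_of_ne hj]; exact hex j hj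
        have e1 : |om d w| = (1 + ε) * |om d (update (update w i 0) i p)| := by
          have e0 : update (update w i 0) i p = update w i p := by simp
          rw [e0]
          rcases hwi with h1 | h1
          · have e : w = update w i ((1 + ε) • p) := by rw [← hp'def, ← h1, update_eq_self]
            conv_lhs => rw [e]
            rw [(om d).map_update_smul, smul_eq_mul, abs_mul, abs_of_pos (by linarith)]
          · have e : w = update w i (-((1 + ε) • p)) := by rw [← hp'def, ← h1, update_eq_self]
            conv_lhs => rw [e]
            rw [(om d).map_update_neg, (om d).map_update_smul, smul_eq_mul, abs_neg, abs_mul,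
              abs_of_pos (by linarith)]
        rw [e1]
        exact (mul_le_mul_of_nonneg_left (hbound _ hw0 i) (by linarith)).trans hεm
  have hSbdd : Bornology.IsBounded S := h.compact.isBounded.union (Set.toFinite _).isBounded
  have hScomp : IsCompact (closure (convexHull ℝ S)) :=
    (isBounded_convexHull.2 hSbdd).isCompact_closure
  have hSC : S ⊆ closure (convexHull ℝ S) := (subset_convexHull ℝ S).trans subset_closure
  have hNS : N ⊆ closure (convexHull ℝ S) := subset_union_left.trans hSC
  have hSconv : Convex ℝ (closure (convexHull ℝ S)) := (convex_convexHull ℝ S).closure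
  have hvol := volume_le hScomp hSconv (db_closure (db_convexHull hSdb))
  rw [← h.vol] at hvol
  have hNfin : volume N ≠ ⊤ := h.compact.measure_lt_top.ne
  have hdiff : volume (closure (convexHull ℝ S) \ N) = 0 := by
    rw [measure_sdiff hNS h.compact.measurableSet.nullMeasurableSet hNfin]
    exact tsub_eq_zero_of_le hvol
  have hsub := subset_of_ae hSconv hScomp.isClosed h.compact.isClosed
    (ne_of_gt ((pos_iff_ne_zero.2 h.vol_ne).trans_le (measure_mono hNS))) hdiff
  have hp'N : p' ∈ N := hsub (hSC (Or.inr (Or.inl rfl)))
  apply hp'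
  have h1 := h.smul_interior hp'N (t := (1 + ε)⁻¹) (by positivity)
    (inv_lt_one_of_one_lt₀ (by linarith))
  rwa [hp'def, smul_smul, inv_mul_cancel₀ (by linarith), one_smul] at h1

end Pool.Agent.K6.H11.GM
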