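import Pool.Agent.K6.H11.GM.Refl

/-!
Planar bodies with many linear reflections are ellipses.
-/

set_option autoImplicit false

open MeasureTheory Set Filter Topology Metric Function
open scoped RealInnerProductSpace ENNReal

namespace Pool.Agent.K6.H11.GM

/-- the determinant of two plane vectors -/
def wd (x y : Fin 2 → ℝ) : ℝ := x 0 * y 1 - x 1 * y 0

lemma wd_cont (x : Fin 2 → ℝ) : Continuous (wd x) := by unfold wd; fun_prop

section planar

variable {P : Set (Fin 2 → ℝ)} (hK : IsCompact P) (h0 : (0 : Fin 2 → ℝ) ∈ interior P)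

/-- the quadratic form -/
noncomputable def qf (P : Set (Fin 2 → ℝ)) (x : Fin 2 → ℝ) : ℝ := ∫ y in P, (wd x y) ^ 2

noncomputable def mA (P : Set (Fin 2 → ℝ)) : ℝ := ∫ y in P, (y 1) ^ 2
noncomputable def mB (P : Set (Fin 2 → ℝ)) : ℝ := ∫ y in P, y 0 * y 1
noncomputable def mC (P : Set (Fin 2 → ℝ)) : ℝ := ∫ y in P, (y 0) ^ 2

include hK in
lemma qf_eq (x : Fin 2 → ℝ) :
    qf P x = mA P * x 0 ^ 2 - 2 * mB P * (x 0 * x 1) + mC P * x 1 ^ 2 := by
  unfold qf mA mB mC
  have i1 : IntegrableOn (fun y : Fin 2 → ℝ => (y 1) ^ 2) P :=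
    (by fun_prop : Continuous fun y : Fin 2 → ℝ => (y 1) ^ 2).continuousOn.integrableOn_compact hK
  have i2 : IntegrableOn (fun y : Fin 2 → ℝ => y 0 * y 1) P :=
    (by fun_prop : Continuous fun y : Fin 2 → ℝ => y 0 * y 1).continuousOn.integrableOn_compact hK
  have i3 : IntegrableOn (fun y : Fin 2 → ℝ => (y 0) ^ 2) P :=
    (by fun_prop : Continuous fun y : Fin 2 → ℝ => (y 0) ^ 2).continuousOn.integrableOn_compact hK
  have e : ∀ y : Fin 2 → ℝ, (wd x y) ^ 2 =
      (x 0 ^ 2 * (y 1) ^ 2 - 2 * (x 0 * x 1) * (y 0 * y 1)) + x 1 ^ 2 * (y 0) ^ 2 := by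
    intro y; unfold wd; ring
  simp_rw [e]
  have hadd : ∫ y in P, ((x 0 ^ 2 * (y 1) ^ 2 - 2 * (x 0 * x 1) * (y 0 * y 1)) +
      x 1 ^ 2 * (y 0) ^ 2) = (∫ y in P, (x 0 ^ 2 * (y 1) ^ 2 - 2 * (x 0 * x 1) * (y 0 * y 1))) +
      ∫ y in P, x 1 ^ 2 * (y 0) ^ 2 :=
    integral_add ((i1.const_mul _).sub (i2.const_mul _)) (i3.const_mul _)
  rw [hadd, integral_sub (i1.const_mul _) (i2.const_mul _), integral_const_mul,
    integral_const_mul, integral_const_mul]
  ring

include hK h0 in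
lemma qf_pos {x : Fin 2 → ℝ} (hx : x ≠ 0) : 0 < qf P x := by
  unfold qf
  have hcont : Continuous fun y : Fin 2 → ℝ => (wd x y) ^ 2 := (wd_cont x).pow 2
  rw [setIntegral_pos_iff_support_of_nonneg_ae
    (Filter.Eventually.of_forall fun y => sq_nonneg _) (hcont.continuousOn.integrableOn_compact hK)]
  have hopen : IsOpen (interior P ∩ support fun y : Fin 2 → ℝ => (wd x y) ^ 2) :=
    isOpen_interior.inter (isOpen_ne_fun hcont continuous_const)
  have hne : (interior P ∩ support fun y : Fin 2 → ℝ => (wd x y) ^ 2).Nonempty := by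
    have hpos : 0 < x 0 ^ 2 + x 1 ^ 2 := by
      by_contra h
      apply hx
      have h1 : x 0 ^ 2 = 0 := by nlinarith [sq_nonneg (x 0), sq_nonneg (x 1)]
      have h2 : x 1 ^ 2 = 0 := by nlinarith [sq_nonneg (x 0), sq_nonneg (x 1)]
      funext i
      fin_cases i
      · simpa using h1
      · simpa using h2
    have hl : Continuous fun t : ℝ => t • (![-(x 1), x 0] : Fin 2 → ℝ) := by fun_prop
    have h1 : (fun t : ℝ => t • (![-(x 1), x 0] : Fin 2 → ℝ)) ⁻¹' interior P ∈ 𝓝 (0 : ℝ) := by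
      apply (isOpen_interior.preimage hl).mem_nhds
      show (0 : ℝ) • (![-(x 1), x 0] : Fin 2 → ℝ) ∈ interior P
      rw [zero_smul]; exact h0
    obtain ⟨ε, hε, hball⟩ := Metric.mem_nhds_iff.1 h1
    have h2 : ε / 2 ∈ ball (0 : ℝ) ε := by
      rw [mem_ball_zero_iff, Real.norm_eq_abs, abs_of_pos (by positivity)]; linarith
    refine ⟨(ε / 2) • (![-(x 1), x 0] : Fin 2 → ℝ), hball h2, ?_⟩
    rw [mem_support]
    have : wd x ((ε / 2) • (![-(x 1), x 0] : Fin 2 → ℝ)) = ε / 2 * (x 0 ^ 2 + x 1 ^ 2) := by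
      simp [wd]; ring
    rw [this]
    positivity
  have h3 := hopen.measure_pos volume hne
  refine h3.trans_le (measure_mono ?_)
  rintro y ⟨h4, h5⟩
  exact ⟨h5, interior_subset h4⟩

/-- Invariance of the quadratic form. -/
lemma qf_inv {w : Fin 2 → ℝ} {a b : ℝ} (hab : a * w 0 + b * w 1 = -2)
    (hP : ∀ x ∈ P, x + (a * x 0 + b * x 1) • w ∈ P) (x : Fin 2 → ℝ) :
    qf P (x + (a * x 0 + b * x 1) • w) = qf P x := by
  -- the reflection
  let R : (Fin 2 → ℝ) →ₗ[ℝ] (Fin 2 → ℝ) :=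
    { toFun := fun x => x + (a * x 0 + b * x 1) • w
      map_add' := fun x y => by
        funext i
        simp only [Pi.add_apply, Pi.smul_apply, smul_eq_mul]
        ring
      map_smul' := fun c x => by
        funext i
        simp only [Pi.add_apply, Pi.smul_apply, smul_eq_mul, RingHom.id_apply]
        ring }
  have hR : ∀ x, R x = x + (a * x 0 + b * x 1) • w := fun _ => rfl
  have hRR : ∀ x, R (R x) = x := by
    intro x
    rw [hR, hR]
    funext i
    simp only [Pi.add_apply, Pi.smul_apply, smul_eq_mul]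
    linear_combination (a * x 0 + b * x 1) * w i * hab
  have hcomp : R ∘ₗ R = LinearMap.id := LinearMap.ext hRR
  have hdet : LinearMap.det R * LinearMap.det R = 1 := by
    rw [← LinearMap.det_comp, hcomp, LinearMap.det_id]
  have hdet0 : LinearMap.det R ≠ 0 := fun h => by rw [h] at hdet; simp at hdet
  have habs : |(LinearMap.det R)⁻¹| = 1 := by
    rw [abs_inv, inv_eq_one]
    have h1 : |LinearMap.det R| * |LinearMap.det R| = 1 := by rw [← abs_mul, hdet, abs_one]
    nlinarith [abs_nonneg (LinearMap.det R)]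
  have hRc : Continuous R := R.continuous_of_finiteDimensional
  have hmp : MeasurePreserving R (volume : Measure (Fin 2 → ℝ)) volume := by
    refine ⟨hRc.measurable, ?_⟩
    rw [Measure.map_linearMap_addHaar_eq_smul_addHaar _ hdet0, habs, ENNReal.ofReal_one, one_smul]
  have hinj : Injective R := fun x y h => by rw [← hRR x, ← hRR y, h]
  have hemb : MeasurableEmbedding R := hRc.measurableEmbedding hinj
  have hpre : R ⁻¹' P = P := by
    ext y
    constructor
    · intro hy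
      have := hP _ hy
      rw [← hR, hRR] at this
      exact this
    · intro hy
      exact hP y hy
  unfold qf
  have h1 := hmp.setIntegral_preimage_emb hemb (fun y => (wd (R x) y) ^ 2) P
  rw [hpre] at h1
  rw [← hR, ← h1]
  congr 1
  funext y
  have : wd (R x) (R y) = - wd x y := by
    rw [hR, hR]
    unfold wd
    simp only [Pi.add_apply, Pi.smul_apply, smul_eq_mul]
    linear_combination (x 0 * y 1 - x 1 * y 0) * hab
  rw [this, neg_sq]

/-- algebra -/
lemma alg_aux {A B C x0 x1 y0 y1 a b : ℝ} (hab : a * (x0 - y0) + b * (x1 - y1) = -2)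
    (hpos : 0 < A * (x0 - y0) ^ 2 - 2 * B * ((x0 - y0) * (x1 - y1)) + C * (x1 - y1) ^ 2)
    (hxy : A * x0 ^ 2 - 2 * B * (x0 * x1) + C * x1 ^ 2 =
      A * y0 ^ 2 - 2 * B * (y0 * y1) + C * y1 ^ 2)
    (e1 : A * (x0 + (a * x0 + b * x1) * (x0 - y0)) ^ 2 -
      2 * B * ((x0 + (a * x0 + b * x1) * (x0 - y0)) * (x1 + (a * x0 + b * x1) * (x1 - y1))) +
      C * (x1 + (a * x0 + b * x1) * (x1 - y1)) ^ 2 =
      A * x0 ^ 2 - 2 * B * (x0 * x1) + C * x1 ^ 2)
    (e2 : A * (y0 + (a * y0 + b * y1) * (x0 - y0)) ^ 2 -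
      2 * B * ((y0 + (a * y0 + b * y1) * (x0 - y0)) * (y1 + (a * y0 + b * y1) * (x1 - y1))) +
      C * (y1 + (a * y0 + b * y1) * (x1 - y1)) ^ 2 =
      A * y0 ^ 2 - 2 * B * (y0 * y1) + C * y1 ^ 2) : a * x0 + b * x1 = -1 := by
  obtain ⟨s, hs⟩ : ∃ s, s = a * x0 + b * x1 := ⟨_, rfl⟩
  obtain ⟨t, ht⟩ : ∃ t, t = a * y0 + b * y1 := ⟨_, rfl⟩
  obtain ⟨Q, hQ⟩ : ∃ Q, Q = A * (x0 - y0) ^ 2 - 2 * B * ((x0 - y0) * (x1 - y1)) +
    C * (x1 - y1) ^ 2 := ⟨_, rfl⟩
  rw [← hs] at e1 ⊢
  rw [← ht] at e2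
  rw [← hQ] at hpos
  have hst : t = s + 2 := by rw [hs, ht]; linarith
  have f1 : s * (1 + s) * Q = 0 := by
    rw [hQ]
    linear_combination e1 - s * hxy
  have f2 : t * (t - 1) * Q = 0 := by
    rw [hQ]
    linear_combination e2 - t * hxy
  have g1 : s * (1 + s) = 0 := (mul_eq_zero.1 f1).resolve_right hpos.ne'
  have g2 : t * (t - 1) = 0 := (mul_eq_zero.1 f2).resolve_right hpos.ne'
  rw [hst] at g2
  nlinarith

include hK h0 in
/-- Points with the same value of the form. -/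
lemma mem_of_qf (hR : ∀ w : Fin 2 → ℝ, w ≠ 0 → ∃ a b : ℝ, a * w 0 + b * w 1 = -2 ∧
    ∀ x ∈ P, x + (a * x 0 + b * x 1) • w ∈ P) {x y : Fin 2 → ℝ} (hxy : qf P x = qf P y)
    (hx : x ∈ P) : y ∈ P := by
  by_cases hne : x = y
  · rw [← hne]; exact hx
  have hw : x - y ≠ 0 := sub_ne_zero.2 hne
  obtain ⟨a, b, hab, hP⟩ := hR _ hw
  have e1 := qf_inv hab hP x
  have e2 := qf_inv hab hP y
  have hpos := qf_pos hK h0 hw
  rw [qf_eq hK] at hpos
  rw [qf_eq hK, qf_eq hK] at e1 e2 hxy
  simp only [Pi.add_apply, Pi.smul_apply, Pi.sub_apply, smul_eq_mul] at e1 e2 hab hpos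
  have hs1 := alg_aux hab hpos hxy e1 e2
  have h3 := hP x hx
  rw [hs1] at h3
  have e3 : x + (-1 : ℝ) • (x - y) = y := by module
  rwa [e3] at h3

include hK h0 in
/-- **Planar bodies with many reflections are ellipses.** -/
theorem planar (hc : Convex ℝ P) (hR : ∀ w : Fin 2 → ℝ, w ≠ 0 → ∃ a b : ℝ,
    a * w 0 + b * w 1 = -2 ∧ ∀ x ∈ P, x + (a * x 0 + b * x 1) • w ∈ P) :
    ∃ A B C : ℝ, (∀ x : Fin 2 → ℝ, 0 ≤ A * x 0 ^ 2 - 2 * B * (x 0 * x 1) + C * x 1 ^ 2) ∧
      ∀ x : Fin 2 → ℝ, x ∈ P ↔ A * x 0 ^ 2 - 2 * B * (x 0 * x 1) + C * x 1 ^ 2 ≤ 1 := by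
  have h0P : (0 : Fin 2 → ℝ) ∈ P := interior_subset h0
  have hqc : Continuous (qf P) := by
    have : qf P = fun x => mA P * x 0 ^ 2 - 2 * mB P * (x 0 * x 1) + mC P * x 1 ^ 2 :=
      funext fun x => qf_eq hK x
    rw [this]; fun_prop
  obtain ⟨x₀, hx₀, hmax⟩ := hK.exists_isMaxOn ⟨_, h0P⟩ hqc.continuousOn
  set ρ := qf P x₀ with hρ
  have hq0 : ∀ x, 0 ≤ qf P x := by
    intro x
    by_cases hx : x = 0
    · rw [hx, qf_eq hK]; simp
    · exact (qf_pos hK h0 hx).le
  have hρ0 : 0 < ρ := by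
    -- some nonzero point of `P`
    have hl : Continuous fun t : ℝ => t • (![1, 0] : Fin 2 → ℝ) := by fun_prop
    have h1 : (fun t : ℝ => t • (![1, 0] : Fin 2 → ℝ)) ⁻¹' interior P ∈ 𝓝 (0 : ℝ) := by
      apply (isOpen_interior.preimage hl).mem_nhds
      show (0 : ℝ) • (![1, 0] : Fin 2 → ℝ) ∈ interior P
      rw [zero_smul]; exact h0
    obtain ⟨ε, hε, hball⟩ := Metric.mem_nhds_iff.1 h1
    have h2 : ε / 2 ∈ ball (0 : ℝ) ε := by
      rw [mem_ball_zero_iff, Real.norm_eq_abs, abs_of_pos (by positivity)]; linarith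
    have h3 : (ε / 2) • (![1, 0] : Fin 2 → ℝ) ∈ P := interior_subset (hball h2)
    have h4 : (ε / 2) • (![1, 0] : Fin 2 → ℝ) ≠ 0 := by
      intro h
      have := congrFun h 0
      simp at this
      linarith
    exact (qf_pos hK h0 h4).trans_le (hmax h3)
  have hscale : ∀ (c : ℝ) (x : Fin 2 → ℝ), qf P (c • x) = c ^ 2 * qf P x := by
    intro c x
    rw [qf_eq hK, qf_eq hK]
    simp only [Pi.smul_apply, smul_eq_mul]
    ring
  have hiff : ∀ x, x ∈ P ↔ qf P x ≤ ρ := by
    intro x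
    refine ⟨fun hx => hmax hx, fun hx => ?_⟩
    by_cases hx0 : x = 0
    · rw [hx0]; exact h0P
    have hqx := qf_pos hK h0 hx0
    set c : ℝ := Real.sqrt (ρ / qf P x) with hcdef
    have hc1 : 1 ≤ c := by
      rw [hcdef]
      apply Real.one_le_sqrt.2
      rwa [le_div_iff₀ hqx, one_mul]
    have h1 : qf P x₀ = qf P (c • x) := by
      rw [hscale, hcdef, Real.sq_sqrt (by positivity), div_mul_cancel₀ _ hqx.ne']
    have h2 := mem_of_qf hK h0 hR h1 hx₀
    have h3 := hc h0P h2 (a := 1 - c⁻¹) (b := c⁻¹) (by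
      have := inv_le_one_of_one_le₀ hc1
      linarith) (by positivity) (by ring)
    rw [smul_zero, zero_add, smul_smul, inv_mul_cancel₀ (by linarith), one_smul] at h3
    exact h3
  refine ⟨mA P / ρ, mB P / ρ, mC P / ρ, fun x => ?_, fun x => ?_⟩
  · have e : mA P / ρ * x 0 ^ 2 - 2 * (mB P / ρ) * (x 0 * x 1) + mC P / ρ * x 1 ^ 2 =
        qf P x / ρ := by rw [qf_eq hK]; ring
    rw [e]
    exact div_nonneg (hq0 x) hρ0.le
  · have e : mA P / ρ * x 0 ^ 2 - 2 * (mB P / ρ) * (x 0 * x 1) + mC P / ρ * x 1 ^ 2 =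
        qf P x / ρ := by rw [qf_eq hK]; ring
    rw [e, div_le_one hρ0]
    exact hiff x

end planar

variable {d : ℕ}

/-- The parallelogram law for the gauge of an extremal body. -/
theorem Ext.parallelogram {M : Set (E d)} {D : ℝ} (h : Ext M D) (i₀ : Fin d) (p q : E d) :
    gauge M (p + q) ^ 2 + gauge M (p - q) ^ 2 = 2 * (gauge M p ^ 2 + gauge M q ^ 2) := by
  have hgs : ∀ (c : ℝ) (x : E d), gauge M (c • x) = |c| * gauge M x := by
    intro c x
    rcases le_total 0 c with hc | hc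
    · rw [gauge_smul_of_nonneg hc, abs_of_nonneg hc, smul_eq_mul]
    · have e : c • x = -((-c) • x) := by module
      rw [e, gauge_neg (fun x hx => h.symm x hx), gauge_smul_of_nonneg (by linarith),
        abs_of_nonpos hc, smul_eq_mul]
  by_cases hli : LinearIndependent ℝ ![p, q]
  swap
  · -- dependent case
    rw [LinearIndependent.pair_iff] at hli
    push Not at hli
    obtain ⟨s, t, hst, hne⟩ := hli
    have hcase : (∃ c : ℝ, p = c • q) ∨ ∃ c : ℝ, q = c • p := by
      by_cases hs : s = 0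
      · right
        have ht := hne hs
        subst hs
        rw [zero_smul, zero_add, smul_eq_zero] at hst
        refine ⟨0, ?_⟩
        rw [zero_smul]
        exact hst.resolve_left ht
      · left
        refine ⟨-(t / s), ?_⟩
        have : s • p = -(t • q) := eq_neg_of_add_eq_zero_left hst
        have h2 : p = s⁻¹ • (s • p) := by rw [smul_smul, inv_mul_cancel₀ hs, one_smul]
        rw [h2, this, smul_neg, smul_smul, neg_smul]
        congr 2
        ring
    rcases hcase with ⟨c, rfl⟩ | ⟨c, rfl⟩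
    · have e1 : c • q + q = (c + 1) • q := by module
      have e2 : c • q - q = (c - 1) • q := by module
      rw [e1, e2, hgs, hgs, hgs, mul_pow, mul_pow, mul_pow, sq_abs, sq_abs, sq_abs]
      ring
    · have e1 : p + c • p = (1 + c) • p := by module
      have e2 : p - c • p = (1 - c) • p := by module
      rw [e1, e2, hgs, hgs, hgs, mul_pow, mul_pow, mul_pow, sq_abs, sq_abs, sq_abs]
      ring
  -- independent case
  let L : (Fin 2 → ℝ) →ₗ[ℝ] E d :=
    { toFun := fun x => x 0 • p + x 1 • q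
      map_add' := fun x y => by simp only [Pi.add_apply]; module
      map_smul' := fun c x => by simp only [Pi.smul_apply, smul_eq_mul, RingHom.id_apply]; module }
  have hL : ∀ x, L x = x 0 • p + x 1 • q := fun _ => rfl
  have hLinj : Injective L := by
    rw [injective_iff_map_eq_zero]
    intro x hx
    rw [hL] at hx
    have := LinearIndependent.pair_iff.1 hli _ _ hx
    funext i
    fin_cases i
    · exact this.1
    · exact this.2
  have hLc : Continuous L := L.continuous_of_finiteDimensional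
  set P : Set (Fin 2 → ℝ) := L ⁻¹' M with hP
  have hPK : IsCompact P :=
    (LinearMap.isClosedEmbedding_of_injective (LinearMap.ker_eq_bot.2 hLinj)).isCompact_preimage
      h.compact
  have hPc : Convex ℝ P := h.convex.linear_preimage L
  have hP0 : (0 : Fin 2 → ℝ) ∈ interior P := by
    have h1 : IsOpen (L ⁻¹' interior M) := isOpen_interior.preimage hLc
    have h2 : L ⁻¹' interior M ⊆ P := preimage_mono interior_subset
    exact interior_maximal h2 h1 (by show L 0 ∈ interior M; rw [map_zero]; exact h.int)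
  have hR : ∀ w : Fin 2 → ℝ, w ≠ 0 → ∃ a b : ℝ,
      a * w 0 + b * w 1 = -2 ∧ ∀ x ∈ P, x + (a * x 0 + b * x 1) • w ∈ P := by
    intro w hw
    have hw0 : L w ≠ 0 := fun h1 => hw (hLinj (by rw [h1, map_zero]))
    have hn : 0 < ‖L w‖ := norm_pos_iff.2 hw0
    have hsq : 0 < w 0 ^ 2 + w 1 ^ 2 := by
      by_contra h1
      apply hw
      have h2 : w 0 ^ 2 = 0 := by nlinarith [sq_nonneg (w 0), sq_nonneg (w 1)]
      have h3 : w 1 ^ 2 = 0 := by nlinarith [sq_nonneg (w 0), sq_nonneg (w 1)]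
      funext i
      fin_cases i
      · simpa using h2
      · simpa using h3
    set u : E d := ‖L w‖⁻¹ • L w with hu
    have hu1 : ‖u‖ = 1 := by rw [hu, norm_smul, norm_inv, norm_norm, inv_mul_cancel₀ hn.ne']
    set w' : Fin 2 → ℝ := ![-(w 1), w 0] with hw'
    set β : ℝ := ⟪L w', u⟫ with hβ
    obtain ⟨lam, hlam⟩ := h.reflection i₀ hu1 (Pool.Agent.H318R3.St.foot_inner hu1 (L w'))
    set z : E d := Pool.Agent.H318R3.St.foot u (L w') with hz
    have hzw : L w' = z + β • u := (Pool.Agent.H318R3.St.foot_add u (L w')).symm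
    have hLw : L w = ‖L w‖ • u := by
      rw [hu, smul_smul, mul_inv_cancel₀ hn.ne', one_smul]
    set S : ℝ := w 0 ^ 2 + w 1 ^ 2 with hS
    set N : ℝ := ‖L w‖ with hN
    -- coordinates of `x`
    have hx : ∀ x : Fin 2 → ℝ, x = ((x 0 * w 0 + x 1 * w 1) / S) • w +
        ((w 0 * x 1 - w 1 * x 0) / S) • w' := by
      intro x
      funext i
      fin_cases i
      · simp only [hw', Fin.zero_eta, Pi.add_apply, Pi.smul_apply, smul_eq_mul,
          Matrix.cons_val_zero]
        field_simp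
        rw [hS]; ring
      · simp only [hw', Fin.mk_one, Pi.add_apply, Pi.smul_apply, smul_eq_mul,
          Matrix.cons_val_one, Matrix.cons_val_fin_one]
        field_simp
        rw [hS]; ring
    refine ⟨(-2 * lam * w 1 - 2 * w 0 * N + 2 * w 1 * β) / (S * N),
      (2 * lam * w 0 - 2 * w 1 * N - 2 * w 0 * β) / (S * N), ?_, fun x hxP => ?_⟩
    · field_simp
      rw [hS]; ring
    · have hxM : L x ∈ M := hxP
      set X : ℝ := (x 0 * w 0 + x 1 * w 1) / S with hX
      set Y : ℝ := (w 0 * x 1 - w 1 * x 0) / S with hY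
      have e1 : L x = Y • z + (X * N + Y * β) • u := by
        conv_lhs => rw [hx x]
        rw [map_add, map_smul, map_smul, hzw, hLw]
        module
      rw [e1] at hxM
      have h2 := hlam _ _ hxM
      show L (x + _ • w) ∈ M
      have e2 : L (x + ((-2 * lam * w 1 - 2 * w 0 * N + 2 * w 1 * β) / (S * N) * x 0 +
          (2 * lam * w 0 - 2 * w 1 * N - 2 * w 0 * β) / (S * N) * x 1) • w) =
          Y • z + (2 * lam * Y - (X * N + Y * β)) • u := by
        rw [map_add, map_smul, e1, hLw]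
        have e3 : (-2 * lam * w 1 - 2 * w 0 * N + 2 * w 1 * β) / (S * N) * x 0 +
          (2 * lam * w 0 - 2 * w 1 * N - 2 * w 0 * β) / (S * N) * x 1 =
            (2 * lam * Y - 2 * (X * N + Y * β)) / N := by
          rw [hX, hY]
          field_simp
          ring
        have e4 : ((2 * lam * Y - 2 * (X * N + Y * β)) / N) • (N • u) =
            (2 * lam * Y - 2 * (X * N + Y * β)) • u := by
          rw [smul_smul, div_mul_cancel₀ _ hn.ne']
        rw [e3, e4]
        module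
      rw [e2]
      exact h2
  obtain ⟨A, B, C, hnn, hiff⟩ := planar hPK hP0 hPc hR
  have hnhds : M ∈ 𝓝 (0 : E d) := mem_interior_iff_mem_nhds.1 h.int
  have hmem : ∀ y : E d, y ∈ M ↔ gauge M y ≤ 1 := by
    intro y
    rw [gauge_le_one_iff_mem_closure h.convex hnhds, h.compact.isClosed.closure_eq]
  have hgauge : ∀ x : Fin 2 → ℝ, gauge M (L x) ^ 2 =
      A * x 0 ^ 2 - 2 * B * (x 0 * x 1) + C * x 1 ^ 2 := by
    intro x
    set Q : ℝ := A * x 0 ^ 2 - 2 * B * (x 0 * x 1) + C * x 1 ^ 2 with hQ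
    have hg0 : 0 ≤ gauge M (L x) := gauge_nonneg _
    have key : ∀ r : ℝ, 0 < r → (gauge M (L x) ≤ r ↔ Q ≤ r ^ 2) := by
      intro r hr
      have h1 : gauge M (L (r⁻¹ • x)) = r⁻¹ * gauge M (L x) := by
        rw [map_smul, hgs, abs_of_pos (inv_pos.2 hr)]
      have h2 := hiff (r⁻¹ • x)
      have h3 : r⁻¹ • x ∈ P ↔ gauge M (L (r⁻¹ • x)) ≤ 1 := hmem _
      rw [h3, h1] at h2
      have h4 : A * (r⁻¹ • x) 0 ^ 2 - 2 * B * ((r⁻¹ • x) 0 * (r⁻¹ • x) 1) +
          C * (r⁻¹ • x) 1 ^ 2 = Q / r ^ 2 := by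
        simp only [Pi.smul_apply, smul_eq_mul]
        rw [hQ]
        field_simp
      rw [h4, div_le_one (by positivity), inv_mul_le_iff₀ hr, mul_one] at h2
      exact h2
    apply le_antisymm
    · by_contra hcon
      push Not at hcon
      have hQ0 : 0 ≤ Q := hnn x
      have hgp : 0 < gauge M (L x) := by
        rcases hg0.lt_or_eq with h1 | h1
        · exact h1
        · rw [← h1] at hcon; nlinarith
      -- choose r between
      set r : ℝ := Real.sqrt ((Q + gauge M (L x) ^ 2) / 2) with hr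
      have hr2 : r ^ 2 = (Q + gauge M (L x) ^ 2) / 2 := Real.sq_sqrt (by positivity)
      have hrpos : 0 < r := Real.sqrt_pos.2 (by positivity)
      have h5 := (key r hrpos).2 (by rw [hr2]; linarith)
      have h6 : gauge M (L x) ^ 2 ≤ r ^ 2 := pow_le_pow_left₀ hg0 h5 2
      rw [hr2] at h6
      linarith
    · by_contra hcon
      push Not at hcon
      set r : ℝ := Real.sqrt ((Q + gauge M (L x) ^ 2) / 2) with hr
      have hpos : 0 < (Q + gauge M (L x) ^ 2) / 2 := by
        have := sq_nonneg (gauge M (L x))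
        linarith
      have hr2 : r ^ 2 = (Q + gauge M (L x) ^ 2) / 2 := Real.sq_sqrt hpos.le
      have hrpos : 0 < r := Real.sqrt_pos.2 hpos
      have h5 : gauge M (L x) ≤ r := by
        rw [hr]
        apply Real.le_sqrt_of_sq_le
        linarith
      have h6 := (key r hrpos).1 h5
      rw [hr2] at h6
      linarith
  have g1 := hgauge ![1, 1]
  have g2 := hgauge ![1, -1]
  have g3 := hgauge ![1, 0]
  have g4 := hgauge ![0, 1]
  rw [hL] at g1 g2 g3 g4
  simp at g1 g2 g3 g4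
  rw [← sub_eq_add_neg] at g2
  rw [g1, g2, g3, g4]
  ring

end Pool.Agent.K6.H11.GM
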