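import Pool.Agent.K6.H11.GM.Ext

/-!
Extremal bodies: the midpoints of parallel chords over a line are on a line.
-/

set_option autoImplicit false

open MeasureTheory Set Filter Topology Metric Function
open scoped RealInnerProductSpace ENNReal
open Pool.Agent.H318R3.St

namespace Pool.Agent.K6.H11.GM

variable {d : ℕ}

lemma formula (f : E d [⋀^Fin d]→ₗ[ℝ] ℝ) (hf : ∀ w, |f w| = |om d w|) {u : E d} (hu : ‖u‖ = 1)
    (X : Fin d → E d) (hX : ∀ i, ⟪X i, u⟫ = 0) (i₀ : Fin d) {x₀ : E d} (hx₀ : ⟪x₀, u⟫ = 0)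
    (y : Fin d → ℝ) (s σ : ℝ) :
    f (update (fun i => X i + y i • u) i₀ (s • x₀ + σ • u)) =
      σ * f (update X i₀ u) +
        s * ∑ i ∈ Finset.univ.erase i₀, y i * f (update (update X i u) i₀ x₀) := by
  have e1 : update (fun i => X i + y i • u) i₀ (s • x₀ + σ • u) =
      fun i => update X i₀ (s • x₀) i + update y i₀ σ i • u := by
    funext i
    by_cases hi : i = i₀
    · subst hi; simp
    · simp [update_of_ne hi]
  have hperp : ∀ i, ⟪update X i₀ (s • x₀) i, u⟫ = 0 := by
    intro i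
    by_cases hi : i = i₀
    · subst hi; rw [update_self, inner_smul_left, hx₀, mul_zero]
    · rw [update_of_ne hi]; exact hX i
  have h0 : f (update X i₀ (s • x₀)) = 0 := by
    have h1 := om_perp hu _ hperp
    have h2 := hf (update X i₀ (s • x₀))
    rw [h1, abs_zero, abs_eq_zero] at h2
    exact h2
  rw [e1, alt_add_smul_univ, h0, zero_add, ← Finset.add_sum_erase _ _ (Finset.mem_univ i₀),
    update_self, update_idem, Finset.mul_sum]
  congr 1
  refine Finset.sum_congr rfl fun i hi => ?_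
  have hi' : i ≠ i₀ := Finset.ne_of_mem_erase hi
  rw [update_of_ne hi', update_comm hi'.symm, f.map_update_smul, smul_eq_mul]
  ring

/-- The supporting line property. -/
theorem Ext.step {M : Set (E d)} {D : ℝ} (h : Ext M D) (i₀ : Fin d) {u : E d} (hu : ‖u‖ = 1)
    {x₀ : E d} (hx₀ : ⟪x₀, u⟫ = 0) (a b : ℝ → ℝ)
    (hab : ∀ s ∈ Icc (0 : ℝ) 1, a s ≤ b s ∧ chord u (s • x₀) M = Icc (a s) (b s)) {t : ℝ}
    (ht : t ∈ Ioo (0 : ℝ) 1) :
    ∃ lam α m : ℝ, (∀ s ∈ Icc (0 : ℝ) 1,
      |(a s + b s) / 2 - lam * s| ≤ α + m * s - (b s - a s) / 2) ∧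
      (a t + b t) / 2 = lam * t ∧ (b t - a t) / 2 = α + m * t := by
  have hD := h.D_pos
  have hN := h.steiner hu
  have htI : t ∈ Icc (0 : ℝ) 1 := ⟨ht.1.le, ht.2.le⟩
  have hperp : ∀ s : ℝ, ⟪s • x₀, u⟫ = 0 := fun s => by rw [inner_smul_left, hx₀, mul_zero]
  have hmemN : ∀ s ∈ Icc (0 : ℝ) 1, ∀ r : ℝ,
      s • x₀ + r • u ∈ sym u M ↔ 2 * |r| ≤ b s - a s := by
    intro s hs r
    obtain ⟨h1, h2⟩ := hab s hs
    rw [mem_sym_line hu (hperp s), h2, Real.volume_Icc, ENNReal.toReal_ofReal (by linarith),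
      nonempty_Icc]
    exact ⟨fun h => h.2, fun h => ⟨h1, h⟩⟩
  have hmemM : ∀ s ∈ Icc (0 : ℝ) 1, ∀ r ∈ Icc (a s) (b s), s • x₀ + r • u ∈ M := by
    intro s hs r hr
    have : r ∈ chord u (s • x₀) M := by rw [(hab s hs).2]; exact hr
    exact this
  have hx₀N : x₀ ∈ sym u M := by
    have := (hmemN 1 ⟨zero_le_one, le_rfl⟩ 0).2 (by
      rw [abs_zero, mul_zero]; linarith [(hab 1 ⟨zero_le_one, le_rfl⟩).1])
    simpa using this
  have hx₁ : t • x₀ ∈ interior (sym u M) := hN.smul_interior hx₀N ht.1.le ht.2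
  set l : ℝ := (b t - a t) / 2 with hl
  have hpush : ∀ q ∈ interior (sym u M), ∃ ε : ℝ, 0 < ε ∧ q + ε • u ∈ sym u M := by
    intro q hq
    obtain ⟨r, hr, hball⟩ := Metric.isOpen_iff.1 isOpen_interior q hq
    refine ⟨r / 2, by positivity, interior_subset (hball ?_)⟩
    rw [mem_ball, dist_eq_norm, add_sub_cancel_left, norm_smul, hu, mul_one, Real.norm_eq_abs,
      abs_of_pos (by positivity)]
    linarith
  have hlpos : 0 < l := by
    obtain ⟨ε, hε, h1⟩ := hpush _ hx₁
    rw [hmemN t htI, abs_of_pos hε] at h1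
    rw [hl]; linarith
  set p : E d := t • x₀ + l • u with hp
  have hpN : p ∈ sym u M := by
    rw [hp, hmemN t htI, abs_of_pos hlpos, hl]; linarith
  have hpI : p ∉ interior (sym u M) := by
    intro hpi
    obtain ⟨ε, hε, h1⟩ := hpush _ hpi
    have e : p + ε • u = t • x₀ + (l + ε) • u := by rw [hp]; module
    rw [e, hmemN t htI, abs_of_pos (by linarith)] at h1
    linarith
  obtain ⟨v, hvN, hvp, hvD⟩ := hN.vertex i₀ hpN hpI
  -- choose the sign
  obtain ⟨f, hf, hfv⟩ : ∃ f : E d [⋀^Fin d]→ₗ[ℝ] ℝ, (∀ w, |f w| = |om d w|) ∧ f v = D := by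
    rcases abs_eq hD.le |>.1 hvD with h1 | h1
    · exact ⟨om d, fun _ => rfl, h1⟩
    · exact ⟨-om d, fun w => by rw [AlternatingMap.neg_apply, abs_neg], by
        rw [AlternatingMap.neg_apply, h1, neg_neg]⟩
  have hfM : ∀ w : Fin d → E d, (∀ i, w i ∈ M) → |f w| ≤ D := fun w hw => by
    rw [hf]; exact h.db w hw
  have hfN : ∀ w : Fin d → E d, (∀ i, w i ∈ sym u M) → |f w| ≤ D := fun w hw => by
    rw [hf]; exact hN.db w hw
  -- coordinates
  set X : Fin d → E d := fun i => foot u (v i) with hX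
  set y : Fin d → ℝ := fun i => ⟪v i, u⟫ with hy
  have hXp : ∀ i, ⟪X i, u⟫ = 0 := fun i => foot_inner hu (v i)
  have hv : ∀ i, X i + y i • u = v i := fun i => foot_add u (v i)
  have hdat : ∀ i, ∃ c : ℝ, X i + (c + y i) • u ∈ M ∧ X i + (c - y i) • u ∈ M := by
    intro i
    have h1 : X i + y i • u ∈ sym u M := by rw [hv]; exact hvN i
    rw [mem_sym_line hu (hXp i)] at h1
    obtain ⟨hne, hle⟩ := h1
    rcases chord_cases hu (X i) h.compact h.convex with h0 | ⟨a', b', hab', h0⟩
    · rw [h0] at hne; exact absurd hne not_nonempty_empty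
    · rw [h0, Real.volume_Icc, ENNReal.toReal_ofReal (by linarith)] at hle
      have hm : ∀ s, s ∈ Icc a' b' → X i + s • u ∈ M := by
        intro s hs
        have : s ∈ chord u (X i) M := by rw [h0]; exact hs
        exact this
      have h3 := abs_le.1 (show |y i| ≤ (b' - a') / 2 by linarith)
      exact ⟨(a' + b') / 2, hm _ ⟨by linarith [h3.1], by linarith [h3.2]⟩,
        hm _ ⟨by linarith [h3.2], by linarith [h3.1]⟩⟩
  choose c hc1 hc2 using hdat
  set K : ℝ := f (update X i₀ u) with hKdef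
  set Lam : (Fin d → ℝ) → ℝ := fun y' =>
    ∑ i ∈ Finset.univ.erase i₀, y' i * f (update (update X i u) i₀ x₀) with hLam
  have hform : ∀ (y' : Fin d → ℝ) (s σ : ℝ),
      f (update (fun i => X i + y' i • u) i₀ (s • x₀ + σ • u)) = σ * K + s * Lam y' :=
    fun y' s σ => formula f hf hu X hXp i₀ hx₀ y' s σ
  have hLadd : Lam (fun i => c i + y i) = Lam c + Lam y := by
    simp only [hLam, add_mul, Finset.sum_add_distrib]
  have hLsub : Lam (fun i => c i - y i) = Lam c - Lam y := by
    simp only [hLam, sub_mul, Finset.sum_sub_distrib]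
  -- value at `v`
  have hupv : ∀ q : E d, update (fun i => X i + y i • u) i₀ q = update v i₀ q := by
    intro q
    funext i
    by_cases hi : i = i₀
    · subst hi; simp
    · rw [update_of_ne hi, update_of_ne hi]; exact hv i
  have e1 : l * K + t * Lam y = D := by
    rw [← hform y t l, ← hp, hupv, ← hvp, update_eq_self, hfv]
  have hLy : Lam y ≤ D := by
    have h1 := hform y 1 0
    rw [hupv, one_smul, zero_smul, add_zero, zero_mul, one_mul, zero_add] at h1
    rw [← h1]
    refine (le_abs_self _).trans (hfN _ fun i => ?_)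
    by_cases hi : i = i₀
    · subst hi; simpa using hx₀N
    · rw [update_of_ne hi]; exact hvN i
  have hKpos : 0 < K := by
    have h1 : 0 < l * K := by nlinarith [ht.1, ht.2]
    exact (pos_iff_pos_of_mul_pos h1).1 hlpos
  -- the two families of inequalities
  have hup : ∀ s ∈ Icc (0 : ℝ) 1, b s * K + s * (Lam c + Lam y) ≤ D := by
    intro s hs
    rw [← hLadd, ← hform (fun i => c i + y i) s (b s)]
    refine (le_abs_self _).trans (hfM _ fun i => ?_)
    by_cases hi : i = i₀
    · subst hi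
      rw [update_self]
      exact hmemM s hs _ ⟨(hab s hs).1, le_rfl⟩
    · rw [update_of_ne hi]; exact hc1 i
  have hlo : ∀ s ∈ Icc (0 : ℝ) 1, -D ≤ a s * K + s * (Lam c - Lam y) := by
    intro s hs
    rw [← hLsub, ← hform (fun i => c i - y i) s (a s)]
    have := (abs_le.1 (hfM (update (fun i => X i + (c i - y i) • u) i₀ (s • x₀ + a s • u))
      fun i => ?_)).1
    · exact this
    by_cases hi : i = i₀
    · subst hi
      rw [update_self]
      exact hmemM s hs _ ⟨le_rfl, (hab s hs).1⟩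
    · rw [update_of_ne hi]; exact hc2 i
  have e2 : (a t + b t) / 2 * K + t * Lam c = 0 := by
    have h1 := hup t htI
    have h2 := hlo t htI
    have h3 : b t = (a t + b t) / 2 + l := by rw [hl]; ring
    have h4 : a t = (a t + b t) / 2 - l := by rw [hl]; ring
    apply le_antisymm
    · have : b t * K = (a t + b t) / 2 * K + l * K := by rw [← add_mul, ← h3]
      rw [this] at h1
      linarith
    · have : a t * K = (a t + b t) / 2 * K - l * K := by rw [← sub_mul, ← h4]
      rw [this] at h2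
      linarith
  refine ⟨-(Lam c) / K, D / K, -(Lam y) / K, fun s hs => ?_, ?_, ?_⟩
  · have h1 := hup s hs
    have h2 := hlo s hs
    have g1 : b s ≤ D / K + -(Lam y) / K * s + -(Lam c) / K * s := by
      rw [div_mul_eq_mul_div, div_mul_eq_mul_div, ← add_div, ← add_div, le_div_iff₀ hKpos]
      linarith
    have g2 : -a s ≤ D / K + -(Lam y) / K * s - -(Lam c) / K * s := by
      rw [div_mul_eq_mul_div, div_mul_eq_mul_div, ← add_div, ← sub_div, le_div_iff₀ hKpos]
      linarith
    rw [abs_le]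
    constructor <;> linarith
  · rw [div_mul_eq_mul_div, eq_div_iff hKpos.ne']
    linarith
  · rw [div_mul_eq_mul_div, ← add_div, eq_div_iff hKpos.ne']
    linarith

/-- The analytic lemma. -/
theorem const_slope (c l : ℝ → ℝ)
    (h : ∀ t ∈ Ioo (0 : ℝ) 1, ∃ lam α m : ℝ, (∀ s ∈ Ioo (0 : ℝ) 1,
      |c s - lam * s| ≤ α + m * s - l s) ∧ c t = lam * t ∧ l t = α + m * t) :
    ∃ lam : ℝ, ∀ t ∈ Ioo (0 : ℝ) 1, c t = lam * t := by
  choose! lam α m h1 h2 h3 using h
  have key : ∀ s ∈ Ioo (0 : ℝ) 1, ∀ t ∈ Ioo (0 : ℝ) 1, s ≤ t →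
      |lam t - lam s| * (t + s) ≤ (m s - m t) * (t - s) := by
    intro s hs t ht hst
    have g1 := h1 s hs t ht
    have g2 := h1 t ht s hs
    rw [h2 t ht, h3 t ht, ← sub_mul, abs_mul, abs_of_pos ht.1] at g1
    rw [h2 s hs, h3 s hs, ← sub_mul, abs_mul, abs_of_pos hs.1, abs_sub_comm] at g2
    nlinarith
  have hle : ∀ s ∈ Ioo (0 : ℝ) 1, ∀ t ∈ Ioo (0 : ℝ) 1, s < t → lam t = lam s := by
    intro s hs t ht hst
    have hn : ∀ n : ℕ, |lam t - lam s| * (n + 1) ≤ (m s - m t) * ((t - s) / (2 * s)) := by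
      intro n
      set δ : ℝ := (t - s) / (n + 1) with hδ
      have hn1 : (0 : ℝ) < n + 1 := by positivity
      have hδ0 : 0 < δ := div_pos (by linarith) hn1
      have hnode : ∀ k : ℕ, k ≤ n + 1 → s + k * δ ∈ Ioo (0 : ℝ) 1 := by
        intro k hk
        have hk' : (k : ℝ) ≤ n + 1 := by exact_mod_cast hk
        have : (k : ℝ) * δ ≤ t - s := by
          calc (k : ℝ) * δ ≤ (n + 1) * δ := mul_le_mul_of_nonneg_right hk' hδ0.le
            _ = t - s := by rw [hδ]; field_simp
        constructor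
        · have : 0 ≤ (k : ℝ) * δ := by positivity
          linarith [hs.1]
        · linarith [ht.2]
      have hsum : ∀ k : ℕ, k ≤ n + 1 →
          |lam (s + k * δ) - lam s| ≤ (m s - m (s + k * δ)) * (δ / (2 * s)) := by
        intro k
        induction k with
        | zero => intro _; simp
        | succ k ih =>
          intro hk
          have ih' := ih (by omega)
          have a1 := hnode k (by omega)
          have a2 := hnode (k + 1) hk
          have h4 : s + k * δ ≤ s + ((k + 1 : ℕ) : ℝ) * δ := by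
            push_cast
            nlinarith
          have h5 := key _ a1 _ a2 h4
          have h6 : s + ((k + 1 : ℕ) : ℝ) * δ - (s + k * δ) = δ := by push_cast; ring
          rw [h6] at h5
          have h7 : 2 * s ≤ s + ((k + 1 : ℕ) : ℝ) * δ + (s + k * δ) := by
            have : 0 ≤ (k : ℝ) * δ := by positivity
            push_cast
            nlinarith
          have h8 : |lam (s + ((k + 1 : ℕ) : ℝ) * δ) - lam (s + k * δ)| ≤
              (m (s + k * δ) - m (s + ((k + 1 : ℕ) : ℝ) * δ)) * (δ / (2 * s)) := by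
            have hs2 : 0 < 2 * s := by linarith [hs.1]
            rw [← mul_div_assoc (m (s + k * δ) - m (s + ((k + 1 : ℕ) : ℝ) * δ)) δ (2 * s),
              le_div_iff₀ hs2]
            exact (mul_le_mul_of_nonneg_left h7 (abs_nonneg _)).trans h5
          calc |lam (s + ((k + 1 : ℕ) : ℝ) * δ) - lam s|
              ≤ |lam (s + ((k + 1 : ℕ) : ℝ) * δ) - lam (s + k * δ)| +
                |lam (s + k * δ) - lam s| := abs_sub_le _ _ _
            _ ≤ _ := by
                have := add_le_add h8 ih'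
                linarith
      have h9 := hsum (n + 1) le_rfl
      have h10 : s + ((n + 1 : ℕ) : ℝ) * δ = t := by
        rw [hδ]; push_cast; field_simp; ring
      rw [h10] at h9
      have h11 : δ / (2 * s) * (n + 1) = (t - s) / (2 * s) := by
        rw [hδ]; field_simp
      calc |lam t - lam s| * (n + 1) ≤ (m s - m t) * (δ / (2 * s)) * (n + 1) :=
            mul_le_mul_of_nonneg_right h9 hn1.le
        _ = _ := by rw [mul_assoc, h11]
    by_contra hne
    have hpos : 0 < |lam t - lam s| := abs_pos.2 (sub_ne_zero.2 hne)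
    obtain ⟨n, hn'⟩ := exists_nat_gt ((m s - m t) * ((t - s) / (2 * s)) / |lam t - lam s|)
    have := hn n
    rw [div_lt_iff₀ hpos] at hn'
    nlinarith
  refine ⟨lam (1 / 2), fun t ht => ?_⟩
  have hh : (1 / 2 : ℝ) ∈ Ioo (0 : ℝ) 1 := by constructor <;> norm_num
  rcases lt_trichotomy t (1 / 2) with h4 | h4 | h4
  · rw [h2 t ht, hle t ht _ hh h4]
  · subst h4; exact h2 _ ht
  · rw [h2 t ht, hle _ hh t ht h4]

/-- **The reflection property of extremal bodies.** -/
theorem Ext.reflection {M : Set (E d)} {D : ℝ} (h : Ext M D) (i₀ : Fin d) {u : E d}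
    (hu : ‖u‖ = 1) {z : E d} (hz : ⟪z, u⟫ = 0) :
    ∃ lam : ℝ, ∀ τ σ : ℝ, τ • z + σ • u ∈ M → τ • z + (2 * lam * τ - σ) • u ∈ M := by
  by_cases hz0 : z = 0
  · refine ⟨0, fun τ σ hm => ?_⟩
    subst hz0
    have := h.symm _ hm
    have e : -(τ • (0 : E d) + σ • u) = τ • (0 : E d) + (2 * 0 * τ - σ) • u := by
      simp
    rwa [e] at this
  have hN := h.steiner hu
  have hzn : 0 < ‖z‖ := norm_pos_iff.2 hz0
  -- the largest multiple in the shadow
  have hScl : IsCompact {τ : ℝ | τ • z ∈ sym u M} := by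
    have hcl : IsClosed {τ : ℝ | τ • z ∈ sym u M} := by
      have hcont : Continuous fun τ : ℝ => τ • z := by fun_prop
      exact hN.compact.isClosed.preimage hcont
    obtain ⟨R, hR⟩ := hN.compact.isBounded.subset_closedBall 0
    apply Metric.isCompact_of_isClosed_isBounded hcl
    refine (Metric.isBounded_Icc (-(R / ‖z‖)) (R / ‖z‖)).subset ?_
    intro τ hτ
    have h1 := mem_closedBall_zero_iff.1 (hR hτ)
    rw [norm_smul, Real.norm_eq_abs] at h1
    exact abs_le.1 ((le_div_iff₀ hzn).2 h1)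
  have hSne : {τ : ℝ | τ • z ∈ sym u M}.Nonempty := ⟨0, by
    show (0 : ℝ) • z ∈ sym u M
    rw [zero_smul]; exact interior_subset hN.int⟩
  obtain ⟨T, hT1, hT2⟩ := hScl.exists_isGreatest hSne
  have hTpos : 0 < T := by
    obtain ⟨r, hr, hball⟩ := Metric.isOpen_iff.1 isOpen_interior _ hN.int
    have h1 : (r / (2 * ‖z‖)) • z ∈ sym u M := by
      apply interior_subset
      apply hball
      rw [mem_ball_zero_iff, norm_smul, Real.norm_eq_abs, abs_of_pos (by positivity)]
      have : r / (2 * ‖z‖) * ‖z‖ = r / 2 := by field_simp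
      rw [this]; linarith
    have h2 : r / (2 * ‖z‖) ≤ T := hT2 h1
    have : 0 < r / (2 * ‖z‖) := by positivity
    linarith
  set x₀ : E d := T • z with hx₀
  have hx₀p : ⟪x₀, u⟫ = 0 := by rw [hx₀, inner_smul_left, hz, mul_zero]
  have hch : ∀ s ∈ Icc (0 : ℝ) 1, ∃ a b : ℝ, a ≤ b ∧ chord u (s • x₀) M = Icc a b := by
    intro s hs
    have h1 : s • x₀ ∈ sym u M := by
      have := hN.convex (interior_subset hN.int) hT1 (a := 1 - s) (b := s) (by linarith [hs.2])
        hs.1 (by ring)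
      simpa [hx₀] using this
    have hp : ⟪s • x₀, u⟫ = 0 := by rw [inner_smul_left, hx₀p, mul_zero]
    have h2 : s • x₀ + (0 : ℝ) • u ∈ sym u M := by rw [zero_smul, add_zero]; exact h1
    rw [mem_sym_line hu hp] at h2
    rcases chord_cases hu (s • x₀) h.compact h.convex with h0 | h0
    · rw [h0] at h2; exact absurd h2.1 not_nonempty_empty
    · exact h0
  choose! a b hab using hch
  obtain ⟨lam', hlam'⟩ := const_slope (fun s => (a s + b s) / 2) (fun s => (b s - a s) / 2)
    (fun t ht => by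
      obtain ⟨lam, α, m, h1, h2, h3⟩ := h.step i₀ hu hx₀p a b hab ht
      exact ⟨lam, α, m, fun s hs => h1 s ⟨hs.1.le, hs.2.le⟩, h2, h3⟩)
  -- for parameters strictly inside
  have hin : ∀ τ σ : ℝ, 0 < τ → τ < T → τ • z + σ • u ∈ M →
      τ • z + (2 * (lam' / T) * τ - σ) • u ∈ M := by
    intro τ σ h0 h1 hm
    have hs : τ / T ∈ Ioo (0 : ℝ) 1 := ⟨by positivity, (div_lt_one hTpos).2 h1⟩
    have hs' : τ / T ∈ Icc (0 : ℝ) 1 := ⟨hs.1.le, hs.2.le⟩
    have e : τ • z = (τ / T) • x₀ := by
      rw [hx₀, smul_smul, div_mul_cancel₀ _ hTpos.ne']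
    have h2 := hlam' _ hs
    have h3 : σ ∈ chord u ((τ / T) • x₀) M := by rw [← e]; exact hm
    rw [(hab _ hs').2] at h3
    have h4 : 2 * (lam' / T) * τ - σ ∈ chord u ((τ / T) • x₀) M := by
      rw [(hab _ hs').2]
      have h5 : 2 * (lam' / T) * τ = a (τ / T) + b (τ / T) := by
        have : a (τ / T) + b (τ / T) = 2 * (lam' * (τ / T)) := by linarith
        rw [this]; field_simp
      rw [h5]
      exact ⟨by linarith [h3.2], by linarith [h3.1]⟩
    rw [← e] at h4
    exact h4
  have hshadow : ∀ τ σ : ℝ, τ • z + σ • u ∈ M → τ ≤ T := by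
    intro τ σ hm
    apply hT2
    have hp : ⟪τ • z, u⟫ = 0 := by rw [inner_smul_left, hz, mul_zero]
    show τ • z ∈ sym u M
    have h2 : τ • z + (0 : ℝ) • u ∈ sym u M := by
      rw [mem_sym_line hu hp]
      exact ⟨⟨σ, hm⟩, by simp⟩
    rwa [zero_smul, add_zero] at h2
  have hpos : ∀ τ σ : ℝ, 0 < τ → τ • z + σ • u ∈ M →
      τ • z + (2 * (lam' / T) * τ - σ) • u ∈ M := by
    intro τ σ h0 hm
    have hcl : IsClosed {t : ℝ | t • (τ • z + (2 * (lam' / T) * τ - σ) • u) ∈ M} := by
      have hcont : Continuous fun t : ℝ => t • (τ • z + (2 * (lam' / T) * τ - σ) • u) := by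
        fun_prop
      exact h.compact.isClosed.preimage hcont
    have hsub : Ioo (0 : ℝ) 1 ⊆ {t : ℝ | t • (τ • z + (2 * (lam' / T) * τ - σ) • u) ∈ M} := by
      intro t ht
      have h1 : t • (τ • z + σ • u) ∈ M := interior_subset (h.smul_interior hm ht.1.le ht.2)
      have e1 : t • (τ • z + σ • u) = (t * τ) • z + (t * σ) • u := by module
      rw [e1] at h1
      have h2 : t * τ < T := by
        have := hshadow τ σ hm
        nlinarith [ht.1, ht.2]
      have h3 := hin _ _ (mul_pos ht.1 h0) h2 h1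
      have e2 : (t * τ) • z + (2 * (lam' / T) * (t * τ) - t * σ) • u =
          t • (τ • z + (2 * (lam' / T) * τ - σ) • u) := by module
      rw [e2] at h3
      exact h3
    have h1 : (1 : ℝ) ∈ closure (Ioo (0 : ℝ) 1) := by
      rw [closure_Ioo (by norm_num)]
      exact ⟨zero_le_one, le_rfl⟩
    have := closure_minimal hsub hcl h1
    have h2 : (1 : ℝ) • (τ • z + (2 * (lam' / T) * τ - σ) • u) ∈ M := this
    rwa [one_smul] at h2
  refine ⟨lam' / T, fun τ σ hm => ?_⟩
  rcases lt_trichotomy τ 0 with h0 | h0 | h0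
  · have h1 := h.symm _ hm
    have e : -(τ • z + σ • u) = (-τ) • z + (-σ) • u := by module
    rw [e] at h1
    have h2 := h.symm _ (hpos _ _ (by linarith) h1)
    have e2 : -((-τ) • z + (2 * (lam' / T) * (-τ) - (-σ)) • u) =
        τ • z + (2 * (lam' / T) * τ - σ) • u := by module
    rwa [e2] at h2
  · subst h0
    have h1 := h.symm _ hm
    have e : -((0 : ℝ) • z + σ • u) = (0 : ℝ) • z + (2 * (lam' / T) * 0 - σ) • u := by
      simp
    rwa [e] at h1
  · exact hpos _ _ h0 hm

end Pool.Agent.K6.H11.GM
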